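import Pool.Agent.H487.GA.Stm

set_option autoImplicit false

/-!
Project GA: elementary lemmas for the assembly.
-/

open Finset Complex Filter Topology Metric Set MeasureTheory

namespace Pool.Agent.H487.GA

open Pool.Agent.Helper242.KK (FT Ph)
open Pool.Agent.H477.Jen
open Pool.Agent.H477.E

/-- the distribution function of `N(0,1)` -/
noncomputable def Phi (a : ℝ) : ℝ := (ProbabilityTheory.gaussianReal 0 1).real (Set.Iic a)

theorem Phi_nonneg (a : ℝ) : 0 ≤ Phi a := measureReal_nonneg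

theorem Phi_le_one (a : ℝ) : Phi a ≤ 1 := measureReal_le_one

theorem gauss_Ioc_le (a b : ℝ) (h : a ≤ b) : (ProbabilityTheory.gaussianReal 0 1).real (Set.Ioc a b) ≤ b - a := by
  rw [Measure.real, ProbabilityTheory.gaussianReal_apply 0 one_ne_zero]
  apply ENNReal.toReal_le_of_le_ofReal (by linarith)
  have h1 : ∀ x : ℝ, ProbabilityTheory.gaussianPDF 0 1 x ≤ 1 := by
    intro x
    rw [ProbabilityTheory.gaussianPDF_def, ← ENNReal.ofReal_one]
    apply ENNReal.ofReal_le_ofReal
    rw [ProbabilityTheory.gaussianPDFReal]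
    have h2 : (Real.sqrt (2 * Real.pi * ((1 : NNReal) : ℝ)))⁻¹ ≤ 1 := by
      apply inv_le_one_of_one_le₀
      rw [Real.one_le_sqrt]
      have := Real.pi_gt_three
      simp
      linarith
    have h3 : Real.exp (-(x - 0) ^ 2 / (2 * ((1 : NNReal) : ℝ))) ≤ 1 := by
      apply Real.exp_le_one_iff.2
      have : 0 ≤ (x - 0) ^ 2 := sq_nonneg _
      simp only [NNReal.coe_one, mul_one]
      linarith
    exact mul_le_one₀ h2 (Real.exp_pos _).le h3
  calc ∫⁻ x in Set.Ioc a b, ProbabilityTheory.gaussianPDF 0 1 x ≤ ∫⁻ x in Set.Ioc a b, 1 :=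
        lintegral_mono fun x => h1 x
    _ = ENNReal.ofReal (b - a) := by rw [lintegral_const, one_mul, Measure.restrict_apply MeasurableSet.univ, Set.univ_inter, Real.volume_Ioc]

theorem Phi_lip {a b : ℝ} (h : a ≤ b) : Phi b ≤ Phi a + (b - a) := by
  have h1 : Set.Iic b = Set.Iic a ∪ Set.Ioc a b := (Set.Iic_union_Ioc_eq_Iic h).symm
  unfold Phi
  rw [h1]
  exact (measureReal_union_le _ _).trans (add_le_add le_rfl (gauss_Ioc_le a b h))

theorem Phi_mono {a b : ℝ} (h : a ≤ b) : Phi a ≤ Phi b :=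
  measureReal_mono (Set.Iic_subset_Iic.2 h)

theorem Phi_neg (a : ℝ) : Phi (-a) = 1 - Phi a := by
  haveI : NullSingletonClass (ProbabilityTheory.gaussianReal 0 1) := ProbabilityTheory.nullSingletonClass_gaussianReal one_ne_zero
  have h1 : (ProbabilityTheory.gaussianReal 0 1).map (fun x => -x) = ProbabilityTheory.gaussianReal 0 1 := by
    rw [ProbabilityTheory.gaussianReal_map_neg, neg_zero]
  have h2 : Phi (-a) = (ProbabilityTheory.gaussianReal 0 1).real (Set.Ici a) := by
    unfold Phi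
    conv_lhs => rw [← h1]
    rw [map_measureReal_apply measurable_neg measurableSet_Iic]
    congr 1
    ext x
    simp
  have h3 : (ProbabilityTheory.gaussianReal 0 1).real (Set.Ici a) = (ProbabilityTheory.gaussianReal 0 1).real (Set.Ioi a) := by
    rw [Measure.real, Measure.real]
    congr 1
    exact (measure_congr Ioi_ae_eq_Ici).symm
  rw [h2, h3, ← Set.compl_Iic, probReal_compl_eq_one_sub measurableSet_Iic]
  rfl

/-- packing: disjoint intervals -/
theorem pack {E : Finset ℝ} {s T : ℝ} {D : Set ℝ} (hs : 0 < s) (hE : ∀ x ∈ E, T ≤ x ∧ x ≤ 2 * T)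
    (hsep : ∀ x ∈ E, ∀ y ∈ E, x < y → x + s ≤ y) (hD : ∀ x ∈ E, ∀ t : ℝ, x ≤ t → t < x + s → t ≤ 2 * T → t ∈ D) :
    ENNReal.ofReal (s * E.card) ≤ volume (D ∩ Set.Icc T (2 * T)) + ENNReal.ofReal s := by
  have h1 : volume (⋃ x ∈ E, Set.Ico x (x + s)) = ENNReal.ofReal (s * E.card) := by
    rw [measure_biUnion_finset]
    · simp only [Real.volume_Ico, add_sub_cancel_left, Finset.sum_const, nsmul_eq_mul]
      rw [mul_comm s, ENNReal.ofReal_mul (Nat.cast_nonneg _), ENNReal.ofReal_natCast]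
    · intro x hx y hy hxy
      rw [Function.onFun, Set.disjoint_left]
      intro z h1 h2
      rcases lt_or_gt_of_ne hxy with h | h
      · have := hsep x hx y hy h
        have := h1.2
        have := h2.1
        linarith
      · have := hsep y hy x hx h
        have := h2.2
        have := h1.1
        linarith
    · exact fun x _ => measurableSet_Ico
  rw [← h1]
  have h2 : (⋃ x ∈ E, Set.Ico x (x + s)) ⊆ (D ∩ Set.Icc T (2 * T)) ∪ Set.Ioc (2 * T) (2 * T + s) := by
    intro t ht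
    rw [Set.mem_iUnion₂] at ht
    obtain ⟨x, hx, h3, h4⟩ := ht
    obtain ⟨h5, h6⟩ := hE x hx
    rcases le_or_gt t (2 * T) with h | h
    · exact Or.inl ⟨hD x hx t h3 h4 h, by linarith, h⟩
    · exact Or.inr ⟨h, by linarith⟩
  refine (measure_mono h2).trans ((measure_union_le _ _).trans ?_)
  rw [Real.volume_Ioc, add_sub_cancel_left]

/-- covering by intervals -/
theorem cover {Y : Finset ℝ} {s : ℝ} {S : Set ℝ} (hs : 0 ≤ s) (h : ∀ t ∈ S, ∃ x ∈ Y, x ≤ t ∧ t ≤ x + s) :
    volume S ≤ ENNReal.ofReal (s * Y.card) := by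
  have h2 : S ⊆ ⋃ x ∈ Y, Set.Icc x (x + s) := by
    intro t ht
    obtain ⟨x, hx, h1, h2⟩ := h t ht
    rw [Set.mem_iUnion₂]
    exact ⟨x, hx, h1, h2⟩
  refine (measure_mono h2).trans ((measure_biUnion_finset_le _ _).trans ?_)
  simp only [Real.volume_Icc, add_sub_cancel_left, Finset.sum_const, nsmul_eq_mul]
  rw [mul_comm s, ENNReal.ofReal_mul (Nat.cast_nonneg _), ENNReal.ofReal_natCast]

end Pool.Agent.H487.GA
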