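import Pool.Agent.H487.GA.Fin1
import Pool.Agent.H487.ED.Win

set_option autoImplicit false

/-!
Project GA: the good heights.
-/

open Finset Complex Filter Topology Metric Set MeasureTheory

namespace Pool.Agent.H487.GA

open Pool.Agent.Helper242.KK (FT Ph)
open Pool.Agent.H477.Jen
open Pool.Agent.H477.E

theorem lamT_two {T t : ℝ} (hT : 1 ≤ T) (h1 : T ≤ t) (h2 : t ≤ 2 * T) : lamT T ≤ lamT t ∧ lamT t ≤ lamT T + 7 / 20 := by
  have hT0 : 0 < T := by linarith
  have hpi := Real.pi_pos
  unfold lamT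
  rw [Real.log_div (by linarith) (by positivity), Real.log_div (by linarith) (by positivity)]
  have h3 : Real.log T ≤ Real.log t := Real.log_le_log hT0 h1
  have h4 : Real.log t ≤ Real.log (2 * T) := Real.log_le_log (by linarith) h2
  rw [Real.log_mul (by norm_num) hT0.ne'] at h4
  have h5 := Real.log_two_lt_d9
  constructor <;> linarith

theorem log_two_pi : 0 ≤ Real.log (2 * Real.pi) ∧ Real.log (2 * Real.pi) ≤ 2 := by
  constructor
  · apply Real.log_nonneg
    have := Real.pi_gt_three
    linarith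
  · have h1 : (2:ℝ) * Real.pi ≤ Real.exp 2 := by
      have h2 := Real.exp_one_gt_d9
      have h3 : Real.exp 2 = Real.exp 1 * Real.exp 1 := by rw [← Real.exp_add]; norm_num
      have := Real.pi_lt_d2
      rw [h3]
      nlinarith
    rw [Real.log_le_iff_le_exp (by positivity)]
    exact h1

theorem lamT_log {T : ℝ} (hT : 0 < T) : Real.log T / 2 - 1 ≤ lamT T ∧ lamT T ≤ Real.log T / 2 := by
  obtain ⟨h1, h2⟩ := log_two_pi
  have hpi := Real.pi_pos
  unfold lamT
  rw [Real.log_div hT.ne' (by positivity)]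
  constructor <;> linarith

/-- moving the point of evaluation -/
theorem move {f : ℂ → ℂ} (hf : Differentiable ℂ f) {t r r' J lam lam' : ℝ} (hr : 0 < r) (hr' : 0 ≤ r') (h1 : r' ≤ r) (h2 : r - r' < r / 2)
    (hJ : 0 < J)
    (hz : ∀ z : ℂ, ‖z - ((t : ℂ) - I * r)‖ ≤ r / 2 → f z ≠ 0 ∧ ‖deriv f z / f z - I * (lam : ℂ)‖ ≤ J / r) :
    |r' * ((deriv f ((t : ℂ) - I * r') / f ((t : ℂ) - I * r')).im - lam') - r * ((deriv f ((t : ℂ) - I * r) / f ((t : ℂ) - I * r)).im - lam)| ≤
      5 * J * ((r - r') / r) + r * |lam - lam'| := by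
  set z0 : ℂ := (t : ℂ) - I * r with hz0
  set z1 : ℂ := (t : ℂ) - I * r' with hz1
  set G : ℂ → ℂ := fun z => deriv f z / f z - I * (lam : ℂ) with hG
  have hd : dist z1 z0 = r - r' := by
    rw [dist_eq_norm, hz1, hz0, show (t : ℂ) - I * r' - ((t : ℂ) - I * r) = I * ((r - r' : ℝ) : ℂ) by push_cast; ring, norm_mul, norm_I, one_mul,
      Complex.norm_real, Real.norm_eq_abs, abs_of_nonneg (by linarith)]
  have h3 : ‖G z0‖ ≤ J / r := (hz z0 (by simpa using by positivity)).2
  have h4 : dist (G z1) (G z0) ≤ (2 * (J / r)) / (r / 2) * dist z1 z0 := by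
    apply Complex.dist_le_div_mul_dist_of_mapsTo_ball
    · intro z hzb
      rw [mem_ball, dist_eq_norm] at hzb
      have h5 := (hz z hzb.le).1
      have h6 : DifferentiableAt ℂ (deriv f) z := (hf.analyticAt z).deriv.differentiableAt
      exact ((h6.div (hf z) h5).sub_const _).differentiableWithinAt
    · intro z hzb
      rw [mem_ball, dist_eq_norm] at hzb
      rw [mem_closedBall, dist_eq_norm]
      have h5 : ‖G z‖ ≤ J / r := (hz z hzb.le).2
      calc ‖G z - G z0‖ ≤ ‖G z‖ + ‖G z0‖ := norm_sub_le _ _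
        _ ≤ 2 * (J / r) := by linarith
    · rw [mem_ball, hd]
      exact h2
  rw [hd] at h4
  have h5 : |(G z1).im - (G z0).im| ≤ 4 * J / r ^ 2 * (r - r') := by
    rw [← Complex.sub_im]
    refine (Complex.abs_im_le_norm _).trans ?_
    rw [dist_eq_norm] at h4
    refine h4.trans (le_of_eq ?_)
    field_simp
    ring
  have h6 : |(G z0).im| ≤ J / r := (Complex.abs_im_le_norm _).trans h3
  have h7 : (deriv f z1 / f z1).im = (G z1).im + lam := by simp [hG]
  have h8 : (deriv f z0 / f z0).im = (G z0).im + lam := by simp [hG]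
  rw [h7, h8]
  have e : r' * ((G z1).im + lam - lam') - r * ((G z0).im + lam - lam) =
    r' * ((G z1).im - (G z0).im) + (r' - r) * (G z0).im + r' * (lam - lam') := by ring
  rw [e]
  have h9 : |r' * ((G z1).im - (G z0).im)| ≤ 4 * J * ((r - r') / r) := by
    rw [abs_mul, abs_of_nonneg hr']
    calc r' * |(G z1).im - (G z0).im| ≤ r * (4 * J / r ^ 2 * (r - r')) :=
          mul_le_mul h1 h5 (abs_nonneg _) hr.le
      _ = _ := by field_simp
  have h10 : |(r' - r) * (G z0).im| ≤ J * ((r - r') / r) := by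
    rw [abs_mul, abs_sub_comm, abs_of_nonneg (by linarith : 0 ≤ r - r')]
    calc (r - r') * |(G z0).im| ≤ (r - r') * (J / r) := mul_le_mul_of_nonneg_left h6 (by linarith)
      _ = _ := by ring
  have h11 : |r' * (lam - lam')| ≤ r * |lam - lam'| := by
    rw [abs_mul, abs_of_nonneg hr']
    exact mul_le_mul_of_nonneg_right h1 (abs_nonneg _)
  calc _ ≤ |r' * ((G z1).im - (G z0).im)| + |(r' - r) * (G z0).im| + |r' * (lam - lam')| := abs_add_three _ _ _
    _ ≤ _ := by linarith

/-- **the good heights** -/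
theorem good (hGAPL : S_GAPL) (hLGV : S_LGV) (hGDX : S_GDX) (hSPC : Pool.Agent.H487.ED.S_SPC) {ε : ℝ} (hε : 0 < ε) (hε1 : ε ≤ 1) :
    ∃ (k0 : ℕ) (δ T0 : ℝ), 0 < δ ∧ 10 ≤ T0 ∧ ∀ T : ℝ, T0 ≤ T → ∀ k : ℕ, k0 ≤ k → (k : ℝ) ≤ δ * Real.log T →
      ∃ B : Set ℝ, MeasurableSet B ∧ volume B ≤ ENNReal.ofReal (ε * T) ∧ ∀ t : ℝ, T ≤ t → t ≤ 2 * T → t ∉ B →
        (∀ x y : ℝ, t - 15 / lamT T ≤ x → x < y → y ≤ t + 15 / lamT T → iteratedDeriv k (FT Ph) x = 0 → iteratedDeriv k (FT Ph) y = 0 →
          (∀ v : ℝ, x < v → v < y → iteratedDeriv k (FT Ph) v ≠ 0) →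
          |k * ((y - x) * Real.log x / (2 * Real.pi) - 1) + XF (Fy (k / lamT T)) T t| ≤ ε) ∧
        (∃ x : ℝ, t - (1 + ε) * (Real.pi / lamT T) ≤ x ∧ x ≤ t ∧ iteratedDeriv k (FT Ph) x = 0) := by
  obtain ⟨J, K, δ1, T1, hJ, hK, hδ1, hT1, hgd⟩ := hGDX (ε / 8) (by positivity)
  obtain ⟨η1, hη1, hη11, k1, hga⟩ := hGAPL (J + 1) (ε / 8) (by positivity) (by positivity)
  obtain ⟨η2, hη2, hη21, k2, hsp⟩ := hSPC ε hε
  obtain ⟨c, hc, k3, T3, hlg⟩ := hLGV (min η1 η2) (lt_min hη1 hη2) ((min_le_left _ _).trans hη11)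
  obtain ⟨k4, hk4⟩ : ∃ k4 : ℕ, ∀ k : ℕ, k4 ≤ k → Real.exp (-c * k) ≤ ε / 8 := by
    have h1 : Tendsto (fun k : ℕ => Real.exp (-c * k)) atTop (𝓝 0) := by
      apply Real.tendsto_exp_atBot.comp
      have h2 : Tendsto (fun k : ℕ => -(c * (k:ℝ))) atTop atBot :=
        tendsto_neg_atTop_atBot.comp (Tendsto.const_mul_atTop hc tendsto_natCast_atTop_atTop)
      exact h2.congr fun k => by ring
    exact eventually_atTop.1 (h1.eventually_le_const (by positivity))
  obtain ⟨k5, hk5⟩ := exists_nat_ge K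
  -- parameters
  obtain ⟨δ, hδ, d1, d2, d3, d4⟩ : ∃ δ : ℝ, 0 < δ ∧ 4 * δ ≤ δ1 ∧ 4 * δ ≤ ε / 200 ∧ 4 * δ ≤ 1 / 100 ∧ 600 * δ ≤ 1 := by
    refine ⟨min (δ1 / 4) (min (ε / 800) (1 / 600)), by positivity, ?_, ?_, ?_, ?_⟩
    · have := min_le_left (δ1 / 4) (min (ε / 800) (1 / 600)); linarith
    · have := (min_le_right (δ1 / 4) (min (ε / 800) (1 / 600))).trans (min_le_left _ _); linarith
    · have := (min_le_right (δ1 / 4) (min (ε / 800) (1 / 600))).trans (min_le_right _ _); linarith
    · have := (min_le_right (δ1 / 4) (min (ε / 800) (1 / 600))).trans (min_le_right _ _); linarith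
  obtain ⟨T4, hT4⟩ : ∃ T4 : ℝ, ∀ T : ℝ, T4 ≤ T → 600 + 800 * (J + 1) / ε ≤ Real.log T :=
    eventually_atTop.1 (Real.tendsto_log_atTop.eventually_ge_atTop _)
  refine ⟨max (max (max k1 k2) (max k3 k4)) (max k5 200), δ, max (max (max T1 T3) T4) 10, hδ, le_max_right _ _, ?_⟩
  intro T hT k hk hkδ
  simp only [max_le_iff] at hT hk
  obtain ⟨⟨⟨hT1', hT3'⟩, hT4'⟩, hT10⟩ := hT
  obtain ⟨⟨⟨hk1, hk2⟩, hk3, hk4'⟩, hk5', hk200⟩ := hk
  have hT0 : 0 < T := by linarith
  have hL := hT4 T hT4'
  have hLJ : 0 < 800 * (J + 1) / ε := by positivity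
  have hkR : (200:ℝ) ≤ k := by exact_mod_cast hk200
  have hKk : K ≤ k := hk5.trans (by exact_mod_cast hk5')
  obtain ⟨l1, l2⟩ := lamT_log hT0
  have hlam : 0 < lamT T := by linarith
  have hlam4 : Real.log T / 4 ≤ lamT T := by linarith
  obtain ⟨r, hr⟩ : ∃ r : ℝ, r = k / lamT T := ⟨_, rfl⟩
  have hr0 : 0 < r := by rw [hr]; positivity
  have hr4 : r ≤ 4 * δ := by
    rw [hr, div_le_iff₀ hlam]
    linarith [mul_le_mul_of_nonneg_left hlam4 hδ.le]
  have hrL : K ≤ r * Real.log T := by
    have : (k:ℝ) * 1 ≤ r * Real.log T := by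
      rw [hr, div_mul_eq_mul_div, le_div_iff₀ hlam]
      linarith [mul_le_mul_of_nonneg_left (show lamT T ≤ Real.log T by linarith) (show (0:ℝ) ≤ k by linarith)]
    linarith
  have h300 : 300 * (k : ℝ) + 300 ≤ Real.log T := by
    linarith [mul_le_mul_of_nonneg_right d4 (show 0 ≤ Real.log T by linarith)]
  obtain ⟨B1, hB1, hB1v, hg⟩ := hgd T hT1' r hr0 hrL (by linarith)
  obtain ⟨B2, hB2, hB2v, hl⟩ := hlg T hT3' k hk3 h300
  refine ⟨B1 ∪ B2, hB1.union hB2, ?_, fun t ht1 ht2 htB => ?_⟩
  · refine (measure_union_le _ _).trans ((add_le_add hB1v hB2v).trans ?_)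
    rw [← ENNReal.ofReal_add (by positivity) (by positivity)]
    apply ENNReal.ofReal_le_ofReal
    have := mul_le_mul_of_nonneg_right (hk4 k hk4') hT0.le
    linarith [mul_pos hε hT0]
  · rw [Set.mem_union, not_or] at htB
    obtain ⟨g1, g2⟩ := hg t ht1 ht2 htB.1
    obtain ⟨T', t1, t2, g3⟩ := hl t ht1 ht2 htB.2
    obtain ⟨m1, m2⟩ := lamT_two (by linarith) t1 t2
    obtain ⟨lam', hlam'⟩ : ∃ lam' : ℝ, lam' = lamT T' := ⟨_, rfl⟩
    rw [← hlam'] at m1 m2 g3
    have hlam'0 : 0 < lam' := by linarith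
    have hr'r : (k:ℝ) / lam' ≤ r := by rw [hr]; exact div_le_div_of_nonneg_left (by linarith) hlam m1
    have hr'0 : 0 < (k:ℝ) / lam' := by positivity
    have hrr : (r - k / lam') / r ≤ 7 / 20 / lamT T := by
      have e : (r - k / lam') / r = (lam' - lamT T) / lam' := by
        rw [hr]
        field_simp
      rw [e]
      calc (lam' - lamT T) / lam' ≤ (7 / 20) / lam' := by
            apply div_le_div_of_nonneg_right _ hlam'0.le
            linarith
        _ ≤ 7 / 20 / lamT T := div_le_div_of_nonneg_left (by norm_num) hlam m1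
    have hlam100 : 100 ≤ lamT T := by linarith
    have hrr2 : r - k / lam' ≤ r / 100 := by
      have h1 : (7:ℝ) / 20 / lamT T ≤ 1 / 100 := by
        rw [div_le_iff₀ hlam]
        linarith
      have h2 := hrr.trans h1
      rw [div_le_iff₀ hr0] at h2
      linarith
    have hk100 : (k:ℝ) / lam' ≤ 1 / 100 := by linarith
    have hJlam : 7 / 20 / lamT T * (5 * J) ≤ ε / 8 := by
      rw [div_mul_eq_mul_div, div_le_iff₀ hlam]
      have h1 : 400 * (J + 1) / ε ≤ lamT T + 1 := by
        have e : 800 * (J + 1) / ε = 2 * (400 * (J + 1) / ε) := by ring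
        rw [e] at hL
        linarith
      have h2 : ε * (400 * (J + 1) / ε) = 400 * (J + 1) := by field_simp
      have h3 := mul_le_mul_of_nonneg_left h1 hε.le
      rw [h2] at h3
      linarith
    refine ⟨fun x y hx hxy hy hzx hzy hno => ?_, ?_⟩
    · -- the gap
      have hw : 15 / lamT T ≤ 20 / lam' := by
        rw [div_le_div_iff₀ hlam hlam'0]
        linarith
      have key := hga (FT Ph) ker_Ph.FT_diff loc_R.conj k hk1 lam' t hlam'0 hk100
        (Pool.Agent.H487.ED.LGd_mono hlam'0 g3 (min_le_left _ _)) (fun z hz => ?_) x y (by linarith) hxy (by linarith) hzx hzy hno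
      · have hmv := move ker_Ph.FT_diff (lam := lamT T) (lam' := lam') hr0 hr'0.le hr'r (by linarith) hJ g1
        have h1 : |lamT T - lam'| ≤ 7 / 20 := by
          rw [abs_sub_comm, abs_of_nonneg (by linarith)]
          linarith
        have h2 : |(k:ℝ) / lam' * ((deriv (FT Ph) ((t : ℂ) - I * ((k / lam' : ℝ) : ℂ)) / FT Ph ((t : ℂ) - I * ((k / lam' : ℝ) : ℂ))).im - lam') -
            r * UU T ((t : ℂ) - I * r)| ≤ ε / 4 := by
          refine hmv.trans ?_
          have h3 : 5 * J * ((r - k / lam') / r) ≤ 7 / 20 / lamT T * (5 * J) := by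
            rw [mul_comm]
            exact mul_le_mul_of_nonneg_right hrr (by positivity)
          have h4 : r * |lamT T - lam'| ≤ r * (7 / 20) := mul_le_mul_of_nonneg_left h1 hr0.le
          linarith
        rw [← hr]
        have h5 : |(k:ℝ) * ((y - x) * Real.log x / (2 * Real.pi) - 1) - k * ((y - x) * lam' / Real.pi - 1)| ≤ ε / 4 := by
          have hx1 : T / 2 ≤ x := by
            have : 15 / lamT T ≤ 1 := by rw [div_le_iff₀ hlam]; linarith
            linarith
          have hx2 : x ≤ 4 * T := by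
            have : 15 / lamT T ≤ 1 := by rw [div_le_iff₀ hlam]; linarith
            linarith
          have h6 : |Real.log x - 2 * lam'| ≤ 6 := by
            have h7 : Real.log x ≤ Real.log (4 * T) := Real.log_le_log (by linarith) hx2
            have h8 : Real.log (T / 2) ≤ Real.log x := Real.log_le_log (by linarith) hx1
            rw [Real.log_mul (by norm_num) hT0.ne'] at h7
            rw [Real.log_div hT0.ne' (by norm_num)] at h8
            have h9 := Real.log_two_lt_d9
            have h10 : Real.log 4 = 2 * Real.log 2 := by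
              rw [show (4:ℝ) = 2 ^ 2 by norm_num, Real.log_pow]; norm_num
            rw [abs_le]
            constructor <;> linarith
          have e : (k:ℝ) * ((y - x) * Real.log x / (2 * Real.pi) - 1) - k * ((y - x) * lam' / Real.pi - 1) =
              k * (y - x) / (2 * Real.pi) * (Real.log x - 2 * lam') := by
            field_simp
            ring
          rw [e, abs_mul, abs_of_nonneg (by have := sub_pos.2 hxy; positivity)]
          have h7 : (k:ℝ) * (y - x) ≤ 30 * r := by
            have h8 : y - x ≤ 30 / lamT T := by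
              have : (30:ℝ) / lamT T = 15 / lamT T + 15 / lamT T := by ring
              linarith
            calc (k:ℝ) * (y - x) ≤ k * (30 / lamT T) := mul_le_mul_of_nonneg_left h8 (by linarith)
              _ = 30 * r := by rw [hr]; ring
          have hpi := Real.pi_gt_three
          have h8 : (k:ℝ) * (y - x) / (2 * Real.pi) ≤ 5 * r := by
            rw [div_le_iff₀ (by positivity)]
            linarith [mul_pos hr0 (sub_pos.2 hpi)]
          calc (k:ℝ) * (y - x) / (2 * Real.pi) * |Real.log x - 2 * lam'| ≤ 5 * r * 6 :=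
                mul_le_mul h8 h6 (abs_nonneg _) (by positivity)
            _ ≤ ε / 4 := by linarith
        rw [abs_le] at h5 h2 key g2 ⊢
        constructor <;> linarith [h5.1, h5.2, h2.1, h2.2, key.1, key.2, g2.1, g2.2]
      · -- the disc
        have h1 : ‖z - ((t : ℂ) - I * r)‖ ≤ r / 2 := by
          have e : z - ((t : ℂ) - I * r) = (z - ((t : ℂ) - I * ((k / lam' : ℝ) : ℂ))) + I * ((r - k / lam' : ℝ) : ℂ) := by
            push_cast
            ring
          rw [e]
          refine (norm_add_le _ _).trans ?_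
          rw [norm_mul, norm_I, one_mul, Complex.norm_real, Real.norm_eq_abs, abs_of_nonneg (by linarith)]
          linarith
        obtain ⟨h2, h3⟩ := g1 z h1
        refine ⟨h2, ?_⟩
        have e : deriv (FT Ph) z / FT Ph z - I * (lam' : ℂ) = (deriv (FT Ph) z / FT Ph z - I * (lamT T : ℂ)) + I * ((lamT T - lam' : ℝ) : ℂ) := by
          push_cast
          ring
        rw [e]
        refine (norm_add_le _ _).trans ?_
        rw [norm_mul, norm_I, one_mul, Complex.norm_real, Real.norm_eq_abs, abs_sub_comm, abs_of_nonneg (by linarith)]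
        have h4 : J / r ≤ J * (lam' / k) := by
          rw [hr, div_div_eq_mul_div, mul_div_assoc]
          apply mul_le_mul_of_nonneg_left _ hJ.le
          exact div_le_div_of_nonneg_right m1 (by linarith)
        have h5 : lam' - lamT T ≤ 1 * (lam' / k) := by
          rw [one_mul, le_div_iff₀ (by linarith)]
          have : (k:ℝ) ≤ lamT T / 100 := by
            have h6 : (k:ℝ) = r * lamT T := by rw [hr]; field_simp
            rw [h6]
            linarith [mul_le_mul_of_nonneg_right (show r ≤ 1 / 100 by linarith) hlam.le]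
          linarith [mul_le_mul_of_nonneg_right (show lam' - lamT T ≤ 7 / 20 by linarith) (show (0:ℝ) ≤ k by linarith)]
        refine (add_le_add h3 le_rfl).trans ?_
        calc J / r + (lam' - lamT T) ≤ J * (lam' / k) + 1 * (lam' / k) := add_le_add h4 h5
          _ = (J + 1) * (lam' / k) := by ring
    · -- existence
      obtain ⟨s1, _⟩ := hsp (FT Ph) ker_Ph.FT_diff loc_R.conj k hk2 lam' t hlam'0 hk100
        (Pool.Agent.H487.ED.LGd_mono hlam'0 g3 (min_le_right _ _))
      have hpi := Real.pi_pos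
      have hpi4 := Real.pi_lt_four
      obtain ⟨x, hx1, hx2, hx3⟩ := s1 (t - (1 + ε) * (Real.pi / lam')) t (by
        have h1 : (1 + ε) * (Real.pi / lam') ≤ k / lam' / 16 := by
          rw [mul_div_assoc', div_div, div_le_div_iff₀ hlam'0 (by positivity)]
          have h2 : (1 + ε) * Real.pi * 16 ≤ k := by
            have h3 : (1 + ε) * Real.pi ≤ 2 * 4 := mul_le_mul (by linarith) hpi4.le hpi.le (by norm_num)
            linarith
          linarith [mul_le_mul_of_nonneg_right h2 hlam'0.le]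
        linarith) (by linarith) (by linarith)
      refine ⟨x, ?_, hx2, hx3⟩
      have h1 : (1 + ε) * (Real.pi / lam') ≤ (1 + ε) * (Real.pi / lamT T) :=
        mul_le_mul_of_nonneg_left (div_le_div_of_nonneg_left hpi.le hlam m1) (by linarith)
      linarith

end Pool.Agent.H487.GA
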