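import Pool.Agent.H487.GA.Fin2

set_option autoImplicit false

/-!
Project GA: counting.
-/

open Finset Complex Filter Topology Metric Set MeasureTheory

namespace Pool.Agent.H487.GA

open Pool.Agent.Helper242.KK (FT Ph)
open Pool.Agent.H477.Jen
open Pool.Agent.H477.E
open Pool.Agent.H487.ED (Ev)

/-- zeros in `(T, 2T]` with a property -/
noncomputable def ZD (k : ℕ) (P : ℂ → Prop) (T : ℝ) : Finset ℂ := cfil (fun w => P w ∧ T < w.re) (ZA_fin k (2 * T)).toFinset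

theorem mem_ZD {k : ℕ} {P : ℂ → Prop} {T : ℝ} (hT : 0 ≤ T) {w : ℂ} :
    w ∈ ZD k P T ↔ iteratedDeriv k (FT Ph) w = 0 ∧ T < w.re ∧ w.re ≤ 2 * T ∧ P w := by
  unfold ZD
  rw [mem_cfil, Set.Finite.mem_toFinset]
  constructor
  · rintro ⟨⟨h1, h2, h3⟩, h4, h5⟩
    exact ⟨h1, h5, h3, h4⟩
  · rintro ⟨h1, h2, h3, h4⟩
    exact ⟨⟨h1, by linarith, h3⟩, h4, h2⟩

theorem cnt_ZD (k : ℕ) (P : ℂ → Prop) {T : ℝ} (hT : 0 ≤ T) : cnt k P (2 * T) - cnt k P T = ∑ w ∈ ZD k P T, ordk k w := by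
  rw [cnt_split k P (show T ≤ 2 * T by linarith), add_sub_cancel_left]
  rfl

/-- the real parts -/
noncomputable def reZ (k : ℕ) (P : ℂ → Prop) (T : ℝ) : Finset ℝ := (ZD k P T).image Complex.re

theorem ordk_simple {k : ℕ} {w : ℂ} (hw : iteratedDeriv k (FT Ph) w = 0) (hs : iteratedDeriv (k + 1) (FT Ph) w ≠ 0) : ordk k w = 1 := by
  have h1 : AnalyticAt ℂ (iteratedDeriv k (FT Ph)) w := (iter_diff k).analyticAt w
  have h2 : deriv (iteratedDeriv k (FT Ph)) w ≠ 0 := by rwa [← iteratedDeriv_succ]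
  have h3 : analyticOrderAt (iteratedDeriv k (FT Ph)) w = 1 := by
    have h4 := h1.analyticOrderAt_sub_eq_one_of_deriv_ne_zero h2
    have h5 : (fun z => iteratedDeriv k (FT Ph) z - iteratedDeriv k (FT Ph) w) = iteratedDeriv k (FT Ph) := by
      funext z
      rw [hw, sub_zero]
    rwa [h5] at h4
  unfold ordk analyticOrderNatAt
  rw [h3]
  norm_num

/-- for evenly spaced zeros the count is the number of real parts -/
theorem cnt_card {k : ℕ} {P : ℂ → Prop} {T ε : ℝ} (hT : 0 ≤ T) :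
    ∑ w ∈ ZD k (fun w => Ev ε k w ∧ P w) T, ordk k w = ((reZ k (fun w => Ev ε k w ∧ P w) T).card : ℝ) := by
  unfold reZ
  rw [Finset.card_image_of_injOn]
  · rw [Finset.sum_congr rfl (g := fun _ => (1:ℝ)) fun w hw => ?_]
    · simp
    · obtain ⟨h1, _, _, h2, _⟩ := (mem_ZD hT).1 hw
      exact ordk_simple h1 h2.2.1
  · intro w hw z hz h
    obtain ⟨_, _, _, h2, _⟩ := (mem_ZD hT).1 hw
    obtain ⟨_, _, _, h3, _⟩ := (mem_ZD hT).1 hz
    apply Complex.ext h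
    rw [h2.1, h3.1]

/-- the next zero after an evenly spaced zero -/
theorem Ev_next {k : ℕ} {w : ℂ} {ε : ℝ} (h : Ev ε k w) (hw : 1 < w.re) (hz : iteratedDeriv k (FT Ph) w = 0) : ∃ b : ℝ, w.re < b ∧ iteratedDeriv k (FT Ph) b = 0 ∧
    (∀ z : ℂ, iteratedDeriv k (FT Ph) z = 0 → w.re < z.re → b ≤ z.re) ∧
    (1 - ε) * (2 * Real.pi / Real.log w.re) ≤ b - w.re ∧ b - w.re ≤ (1 + ε) * (2 * Real.pi / Real.log w.re) := by
  obtain ⟨h1, h2, a, b, h3, h4, h5, h6, h7, h8, h9⟩ := h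
  have hl : 0 < Real.log w.re := Real.log_pos hw
  have hpi := Real.pi_pos
  refine ⟨b, h4, h6, fun z hz hzw => ?_, ?_, ?_⟩
  · by_contra hcon
    have := h7 z hz (by linarith) (by linarith)
    rw [this] at hzw
    exact lt_irrefl _ hzw
  · obtain ⟨h10, _⟩ := abs_le.1 h9
    rw [mul_div_assoc', div_le_iff₀ hl]
    rw [neg_le_sub_iff_le_add, ← sub_le_iff_le_add, le_div_iff₀ (by positivity)] at h10
    linarith
  · obtain ⟨_, h10⟩ := abs_le.1 h9
    rw [mul_div_assoc', le_div_iff₀ hl]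
    rw [sub_le_iff_le_add, div_le_iff₀ (by positivity)] at h10
    linarith

theorem real_eq {w : ℂ} (h : w.im = 0) : ((w.re : ℝ) : ℂ) = w := by
  apply Complex.ext
  · simp
  · simp [h]

/-- `Gp` for an evenly spaced zero, in terms of its next zero -/
theorem Gp_iff {a : ℝ} {k : ℕ} {w : ℂ} {b : ℝ} (hw : w.im = 0) (h1 : w.re < b) (h2 : iteratedDeriv k (FT Ph) b = 0)
    (h3 : ∀ z : ℂ, iteratedDeriv k (FT Ph) z = 0 → w.re < z.re → b ≤ z.re) :
    Gp a k w ↔ Real.sqrt 8 * k * ((b - w.re) * Real.log w.re / (2 * Real.pi) - 1) ≤ a := by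
  constructor
  · rintro ⟨_, b', h4, h5, h6, h7⟩
    have h8 : b ≤ b' := by simpa using h3 b' h5 (by simpa using h4)
    have h9 : b' ≤ b := by simpa using h6 b h2 (by simpa using h1)
    rwa [le_antisymm h9 h8] at h7
  · intro h
    exact ⟨hw, b, h1, h2, h3, h⟩

end Pool.Agent.H487.GA
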