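import Pool.Agent.H487.GA.Stm

set_option autoImplicit false

/-!
# Project GA (helper487), second file: sub-statements (all pure analysis)
-/

open Finset Complex Filter Topology Metric Set MeasureTheory

namespace Pool.Agent.H487.GA

open Pool.Agent.Helper242.KK (FT Ph)
open Pool.Agent.H477.Jen
open Pool.Agent.H477.E

noncomputable section

/-- **S_KB.** Bounds for the truncated Poisson kernel.

Proof. See `S_KAD` (first and third paragraph). `F = Fy y`, `0 < y ≤ 2`. `∫ |F| ≤ π y`. `∫ |F''| ≤ C / y`. `∫ |x F(x)| ≤ y² log (1 + 1/y²) ≤ C y^{3/2}`, `∫ |(x F)''| ≤ C`. Two integrations by parts; `deriv (FF F) ξ = -i FF (x F) ξ`. (Helper lemmas: `Pool/Agent/H203/ME/VAR.lean`, `ADM.lean` on main: `FF_le`, `FF_le2`,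
`FF_hasDerivAt`; copy what you need.) Last clause: Fourier transform of the Poisson kernel `∫_ℝ y²/(x²+y²) e^{-iξx} dx = π y e^{-y|ξ|}` and `D = y²/(x²+y²) (1 - chi x)`, `∫ |D| ≤ C y²`, `∫ |D''| ≤ C y²`. -/
def S_KB : Prop := ∃ C : ℝ, 0 < C ∧ ∀ y : ℝ, 0 < y → y ≤ 2 → C2c (Fy y) ∧ ∫ x : ℝ, |Fy y x| ≤ C * y ∧
  ∫ x : ℝ, |deriv (deriv (Fy y)) x| ≤ C / y ∧ ContinuousOn (FF (Fy y)) (Ioi 0) ∧ ContinuousOn (deriv (FF (Fy y))) (Ioi 0) ∧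
  ∀ ξ : ℝ, 0 < ξ → ‖FF (Fy y) ξ‖ ≤ C * y ∧ ‖FF (Fy y) ξ‖ ≤ C / (y * ξ ^ 2) ∧
    ‖deriv (FF (Fy y)) ξ‖ ≤ C * (y * Real.sqrt y) ∧ ‖deriv (FF (Fy y)) ξ‖ ≤ C / ξ ^ 2 ∧
    ‖FF (Fy y) ξ - ((Real.pi * y * Real.exp (-(y * ξ)) : ℝ) : ℂ)‖ ≤ C * y ^ 2 / (1 + ξ ^ 2)

/-- **S_LAND.** Landau's local lemma at the scale `R`, with a bound for the derivative of the remainder.

Proof. Translate and scale: `z0 = 0`, `R = 1`. The zeros of `f` in `closedBall 0 (1/2)` number `n ≤ C M` (Jensen: Mathlib `Mathlib.Analysis.Complex.JensenFormula`, or `Pool.Agent.Y24.jensen_low` in `Pool/Graph/R_seed8/Y24/E1.lean`, or by hand with Blaschke factors). `g = f / ∏ (z - ρ)^m` over them is entire near `closedBall 0 1`, zero free on `ball 0 (1/2)`,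
`|g(z)/g(0)| = |f(z)/f(0)| ∏ |ρ|/|z-ρ| ≤ e^M` on `‖z‖ = 1` (as `|ρ| ≤ 1/2 ≤ |z - ρ|`), so `log (g/g(0))` on `ball 0 (1/2)` has real part `≤ M`, and by Borel-Caratheodory (`Complex.borelCaratheodory...`) it is bounded by `C M` on `ball 0 (3/8)`; `A = g'/g`, `A' ` by Cauchy: `≤ C M`. Scale back: `A ≤ C M/R`, `A' ≤ C M/R²`. -/
def S_LAND : Prop := ∃ C : ℝ, 0 < C ∧ ∀ (f : ℂ → ℂ) (z0 : ℂ) (R M : ℝ), 0 < R → 0 < M → Differentiable ℂ f → f z0 ≠ 0 →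
  (∀ z : ℂ, ‖z - z0‖ ≤ R → ‖f z‖ ≤ Real.exp M * ‖f z0‖) →
  {ρ : ℂ | f ρ = 0 ∧ ‖ρ - z0‖ ≤ R / 2}.Finite ∧ ∃ A : ℂ → ℂ, ∀ z : ℂ, ‖z - z0‖ ≤ R / 4 →
    AnalyticAt ℂ A z ∧ ‖deriv A z‖ ≤ C * M / R ^ 2 ∧
    (f z ≠ 0 → deriv f z / f z = (∑ᶠ ρ ∈ {ρ : ℂ | f ρ = 0 ∧ ‖ρ - z0‖ ≤ R / 2}, (analyticOrderNatAt f ρ : ℂ) * (1 / (z - ρ))) + A z)

/-- **S_OFFA.** `L¹` norm of the second difference of the Poisson kernel.

Proof. `q(v) = v/(x²+v²)`, `∫_ℝ |q(v)| dx ≤ π`: for `|b| ≥ y/2` the integral is `≤ 4π y ≤ 16 π b²/y`. For `|b| < y/2`: `q(y-b) + q(y+b) - 2q(y) = ∫_0^b (q'(y+s) - q'(y-s)) ds`, `|q''(v)| ≤ C |v|^{-1}/(x²+v²)`-type (`q'' = (2v³ - 6 v x²)/(x²+v²)³`, so `|q''| ≤ 6 v/(x²+v²)²`), `v ≥ y/2`, so `|..| ≤ b² sup |q''| ≤ b² 6·(3y/2)/(x² + y²/4)²`, whose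
integral is `≤ C b²/y²`. (Or compute the second difference exactly as a rational function.) -/
def S_OFFA : Prop := ∃ C : ℝ, 0 < C ∧ ∀ y b g : ℝ, 0 < y →
  ∫⁻ t : ℝ, ENNReal.ofReal |y * ((y - b) / ((t - g) ^ 2 + (y - b) ^ 2)) + y * ((y + b) / ((t - g) ^ 2 + (y + b) ^ 2)) - 2 * (y ^ 2 / ((g - t) ^ 2 + y ^ 2))| ≤
    ENNReal.ofReal (C * b ^ 2 / y)

/-- a smooth partition of unity: `∑_{n ∈ ℤ} psi (x - n) = 1`, support in `[-1, 1]` -/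
def psi (x : ℝ) : ℝ := Real.smoothTransition (x + 1) - Real.smoothTransition x

/-- the blocks of the far part of the Poisson kernel -/
def Hn (y : ℝ) (n : ℤ) (x : ℝ) : ℝ := psi (2 * x) * (1 - chi (x + n / 2)) / ((x + n / 2) ^ 2 + y ^ 2)

/-- **S_HN.** The blocks are admissible, uniformly.

Proof. Support in `[-1/2, 1/2]`, and `1 - chi (x + n/2) = 0` for `|x + n/2| ≤ 1/2`; so the function is `C²` and its derivatives up to order 2 are `≤ C₁/(1+n²)` uniformly in `y ∈ (0, 5/4]` (on the support of `1 - chi`, `X = x + n/2` has `|X| ≥ 1/2` and the derivatives of `1/(X²+y²)` are `≤ C/(1+X²)`). `F = c (1+n²) Hn`: `∫ |F| ≤ c C₁ ≤ 1`, `∫ |F''| ≤ c C₁ ≤ 1 ≤ L`,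
`‖FF F ξ‖ ≤ min(c C₁, c C₁/ξ²)`, `deriv (FF F) ξ = -i FF (x F) ξ`, same bounds; so `va ≤ C c²`, `tv ≤ C c² ≤ 1`. (Helper lemmas: `Pool/Agent/H203/ME/VAR.lean`, `ADM.lean` on main: `FF_le`, `FF_le2`, `FF_hasDerivAt`; copy what you need.) -/
def S_HN : Prop := ∃ c V : ℝ, 0 < c ∧ 0 < V ∧ ∀ y : ℝ, 0 < y → y ≤ 5 / 4 → ∀ n : ℤ, ∀ L : ℝ, 1 ≤ L →
  Adm 1 V L (fun x => c * (1 + (n : ℝ) ^ 2) * Hn y n x)

/-- **S_CONEA.** The derivative is bounded by the mean of the imaginary part over a disc: part (a) of the proof of `S_CONE`. -/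
def S_CONEA : Prop := ∀ (G : ℂ → ℂ) (z : ℂ) (ρ : ℝ), 0 < ρ → (∀ w : ℂ, ‖w - z‖ ≤ ρ → AnalyticAt ℂ G w) →
  ENNReal.ofReal (‖deriv G z‖ * ρ ^ 3) ≤ ∫⁻ w in closedBall z ρ, ENNReal.ofReal |(G w).im|

/-- **S_PRECA.** The constant `AA k`.

Proof. `‖AA k‖ ≥ Re AA k`, `Re exp(k(e^{ix} - 1 - ix)) = e^{k(cos x - 1)} cos(k (sin x - x))`; with `s = k^{-1/2}`: on `|x| ≤ s` it is `≥ e^{-1/2} cos(1/6) ≥ 1/2`, on `|x| ≤ k^{-1/3}` it is `≥ 0` (`|sin x - x| ≤ |x|³/6`), and for `k^{-1/3} ≤ |x| ≤ 1/8` the modulus is `≤ exp(-k x²/3) ≤ exp(-k^{1/3}/3)`. So `Re AA k ≥ s - (1/4) exp(-k^{1/3}/3) ≥ s/2` for `k ≥ k0`.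
Second part: `cos x - 1 ≤ -x²/3` for `|x| ≤ 1/8`, `∫ |x| e^{-k x²/3} dx = 3/k`. -/
def S_PRECA : Prop := ∃ k0 : ℕ, 1 ≤ k0 ∧ ∀ k : ℕ, k0 ≤ k → 1 / (2 * Real.sqrt k) ≤ ‖AA k‖ ∧
  ∫ x in (-(1 / 8) : ℝ)..(1 / 8), |x| * Real.exp (k * (Real.cos x - 1)) ≤ 3 / k

/-- **S_LEVS.** Lévy's theorem for the limit `N(0, 1/8)`, in terms of distribution functions.

Proof. `charFun` of `N(0, 1/8)` is `e^{-u²/16}` (`ProbabilityTheory.charFun_gaussianReal`); Lévy's continuity theorem in Mathlib (`MeasureTheory.ProbabilityMeasure.tendsto_iff_tendsto_charFun`, or similar name; search for `charFun` in Mathlib), portmanteau (`ProbabilityMeasure.tendsto_measure_of_null_frontier_of_tendsto`), no atoms; `N(0,1/8)(Iic a) = N(0,1)(Iic (√8 a))` (`gaussianReal_map_const_mul`). -/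
def S_LEVS : Prop := ∀ μ : ℕ → Measure ℝ, (∀ n, IsProbabilityMeasure (μ n)) →
  (∀ u : ℝ, Tendsto (fun n => charFun (μ n) u) atTop (𝓝 (cexp (-(u : ℂ) ^ 2 / 16)))) →
  ∀ a : ℝ, Tendsto (fun n => (μ n).real (Set.Iic a)) atTop (𝓝 ((ProbabilityTheory.gaussianReal 0 1).real (Set.Iic (Real.sqrt 8 * a))))

end

end Pool.Agent.H487.GA
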