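import Pool.Agent.H487.GA.Fin3
import Pool.Agent.H487.GA.Stm2
import Pool.Agent.H358.GA.Cdf

set_option autoImplicit false

/-!
Project GA: counting, the limit law.
-/

open Finset Complex Filter Topology Metric Set MeasureTheory

namespace Pool.Agent.H487.GA

open Pool.Agent.Helper242.KK (FT Ph)
open Pool.Agent.H477.Jen
open Pool.Agent.H477.E
open Pool.Agent.H487.ED (Ev)

theorem ZD_le {k : ℕ} {P Q R : ℂ → Prop} {T : ℝ} (hT : 0 ≤ T) (h : ∀ w, P w → Q w ∨ R w) :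
    ∑ w ∈ ZD k P T, ordk k w ≤ ∑ w ∈ ZD k Q T, ordk k w + ∑ w ∈ ZD k R T, ordk k w := by
  classical
  rw [← Finset.sum_union_inter]
  have h1 : 0 ≤ ∑ w ∈ ZD k Q T ∩ ZD k R T, ordk k w := Finset.sum_nonneg fun w _ => ordk_nonneg k w
  have h2 : ∑ w ∈ ZD k P T, ordk k w ≤ ∑ w ∈ ZD k Q T ∪ ZD k R T, ordk k w := by
    apply Finset.sum_le_sum_of_subset_of_nonneg
    · intro w hw
      obtain ⟨h1, h2, h3, h4⟩ := (mem_ZD hT).1 hw
      rw [Finset.mem_union, mem_ZD hT, mem_ZD hT]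
      rcases h w h4 with h5 | h5
      · exact Or.inl ⟨h1, h2, h3, h5⟩
      · exact Or.inr ⟨h1, h2, h3, h5⟩
    · exact fun w _ _ => ordk_nonneg k w
  linarith

theorem ZD_mono {k : ℕ} {P Q : ℂ → Prop} {T : ℝ} (hT : 0 ≤ T) (h : ∀ w, P w → Q w) :
    ∑ w ∈ ZD k P T, ordk k w ≤ ∑ w ∈ ZD k Q T, ordk k w := by
  apply Finset.sum_le_sum_of_subset_of_nonneg
  · intro w hw
    obtain ⟨h1, h2, h3, h4⟩ := (mem_ZD hT).1 hw
    rw [mem_ZD hT]
    exact ⟨h1, h2, h3, h w h4⟩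
  · exact fun w _ _ => ordk_nonneg k w

theorem card_le_sum {k : ℕ} {P : ℂ → Prop} {T : ℝ} (hT : 0 ≤ T) : ((reZ k P T).card : ℝ) ≤ ∑ w ∈ ZD k P T, ordk k w := by
  have h1 : ((reZ k P T).card : ℝ) ≤ ((ZD k P T).card : ℝ) := by
    unfold reZ
    exact_mod_cast Finset.card_image_le
  refine h1.trans ?_
  rw [← nsmul_one, ← Finset.sum_const]
  apply Finset.sum_le_sum
  intro w hw
  exact ordk_one k ((mem_ZD hT).1 hw).1

/-- the final arithmetic -/
theorem arith {e s N T p E1 E2 X G : ℝ} (he : 0 < e) (he1 : e ≤ 1 / 100) (hs : 0 < s) (hp0 : 0 ≤ p) (hp1 : p ≤ 1) (hN : 0 ≤ N)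
    (h0 : T * (1 - 2 * e) ≤ s * (1 + 4 * e) * N) (h1 : s * E1 ≤ T * (p + 9 * e)) (h2 : s * E2 ≤ T * (1 - p + 6 * e))
    (hX : X ≤ e * N) (h3 : N ≤ E1 + E2 + X) (h4 : G ≤ E1 + X) (h5 : E1 ≤ G) : |G - p * N| ≤ 20 * e * N := by
  have h6 : T ≤ s * N * (1 + 7 * e) := by
    have h7 : (1 + 4 * e) ≤ (1 + 7 * e) * (1 - 2 * e) := by nlinarith only [he, he1]
    have h8 : 0 ≤ s * N := by positivity
    have h9 : T * (1 - 2 * e) ≤ (s * N * (1 + 7 * e)) * (1 - 2 * e) := by linarith [mul_le_mul_of_nonneg_left h7 h8]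
    exact le_of_mul_le_mul_right h9 (by linarith)
  have hsN : 0 ≤ s * N := by positivity
  have h7 : s * E1 ≤ s * (N * (p + 17 * e)) := by
    refine h1.trans ((mul_le_mul_of_nonneg_right h6 (by linarith)).trans ?_)
    have h8 : (1 + 7 * e) * (p + 9 * e) ≤ p + 17 * e := by nlinarith only [he, he1, mul_le_mul_of_nonneg_left hp1 he.le]
    linarith [mul_le_mul_of_nonneg_left h8 hsN]
  have h8 : s * E2 ≤ s * (N * (1 - p + 14 * e)) := by
    refine h2.trans ((mul_le_mul_of_nonneg_right h6 (by linarith)).trans ?_)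
    have h8 : (1 + 7 * e) * (1 - p + 6 * e) ≤ 1 - p + 14 * e := by nlinarith only [he, he1, mul_nonneg he.le hp0]
    linarith [mul_le_mul_of_nonneg_left h8 hsN]
  have h9 : E1 ≤ N * (p + 17 * e) := le_of_mul_le_mul_left h7 hs
  have h10 : E2 ≤ N * (1 - p + 14 * e) := le_of_mul_le_mul_left h8 hs
  have h11 : 0 ≤ e * N := by positivity
  rw [abs_le]
  constructor
  · linarith
  · linarith

theorem finx_proof (hGAPL : S_GAPL) (hLGV : S_LGV) (hGDX : S_GDX) (hSPC : Pool.Agent.H487.ED.S_SPC) (hKB : S_KB) (hCDF : S_CDF)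
    (hDYA : Pool.Agent.H487.ED.S_DYA) : S_FINX := by
  intro a ε hε
  obtain ⟨e, he, he1, heε⟩ : ∃ e : ℝ, 0 < e ∧ e ≤ 1 / 100 ∧ 20 * e ≤ ε := by
    refine ⟨min (ε / 20) (1 / 100), by positivity, min_le_right _ _, ?_⟩
    have := min_le_left (ε / 20) (1 / 100)
    linarith
  obtain ⟨q, hq⟩ : ∃ q : ℝ, q = a / Real.sqrt 8 := ⟨_, rfl⟩
  have h8 : 0 < Real.sqrt 8 := by positivity
  have h83 : Real.sqrt 8 ≤ 3 := by
    rw [Real.sqrt_le_left (by norm_num)]
    norm_num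
  have hq8 : Real.sqrt 8 * q = a := by rw [hq]; field_simp
  obtain ⟨k1, δ1, T1, hδ1, hT1, hgood⟩ := good hGAPL hLGV hGDX hSPC he (by linarith)
  obtain ⟨K2, δ2, T2, hK2, hδ2, hc1⟩ := hCDF (-q + e) e he
  obtain ⟨K3, δ3, T3, hK3, hδ3, hc2⟩ := hCDF (-q - 2 * e) e he
  obtain ⟨c, C, T4, hc, hdya⟩ := hDYA e he
  obtain ⟨CK, hCK, hkb⟩ := hKB
  obtain ⟨k4, hk4⟩ : ∃ k4 : ℕ, ∀ k : ℕ, k4 ≤ k → C * Real.exp (-c * k) ≤ e := by
    have h1 : Tendsto (fun k : ℕ => Real.exp (-c * k)) atTop (𝓝 0) := by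
      apply Real.tendsto_exp_atBot.comp
      have h2 : Tendsto (fun k : ℕ => -(c * (k:ℝ))) atTop atBot :=
        tendsto_neg_atTop_atBot.comp (Tendsto.const_mul_atTop hc tendsto_natCast_atTop_atTop)
      exact h2.congr fun k => by ring
    have h2 : Tendsto (fun k : ℕ => C * Real.exp (-c * k)) atTop (𝓝 (C * 0)) := h1.const_mul C
    rw [mul_zero] at h2
    exact eventually_atTop.1 (h2.eventually_le_const he)
  obtain ⟨k5, hk5⟩ := exists_nat_ge (max K2 K3)
  obtain ⟨δ, hδ, d1, d2, d3, d4⟩ : ∃ δ : ℝ, 0 < δ ∧ δ ≤ δ1 ∧ 4 * δ ≤ δ2 ∧ 4 * δ ≤ δ3 ∧ 400 * δ ≤ 1 := by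
    refine ⟨min (min δ1 (δ2 / 4)) (min (δ3 / 4) (1 / 400)), by positivity, ?_, ?_, ?_, ?_⟩
    · exact (min_le_left _ _).trans (min_le_left _ _)
    · have := (min_le_left (min δ1 (δ2 / 4)) (min (δ3 / 4) (1 / 400))).trans (min_le_right _ _); linarith
    · have := (min_le_right (min δ1 (δ2 / 4)) (min (δ3 / 4) (1 / 400))).trans (min_le_left _ _); linarith
    · have := (min_le_right (min δ1 (δ2 / 4)) (min (δ3 / 4) (1 / 400))).trans (min_le_right _ _); linarith
  obtain ⟨T5, hT5⟩ : ∃ T5 : ℝ, ∀ T : ℝ, T5 ≤ T → 100 + 6 / e ≤ Real.log T :=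
    eventually_atTop.1 (Real.tendsto_log_atTop.eventually_ge_atTop _)
  refine ⟨max (max k1 k4) (max k5 1), δ, max (max (max T1 T2) (max T3 T4)) (max T5 (10 + 2 / e)), hδ, ?_⟩
  intro T hT k hk hkδ
  simp only [max_le_iff] at hT hk
  obtain ⟨⟨⟨hT1', hT2'⟩, hT3', hT4'⟩, hT5', hT10⟩ := hT
  obtain ⟨⟨hk1, hk4'⟩, hk5', hk1'⟩ := hk
  have h2e : 0 < 2 / e := by positivity
  have hT0 : 0 < T := by linarith
  have heT : 2 ≤ e * T := by
    have h1 : 2 / e ≤ T := by linarith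
    rw [div_le_iff₀ he] at h1
    linarith
  have hL := hT5 T hT5'
  have h6e : 0 < 6 / e := by positivity
  have hkR : (1:ℝ) ≤ k := by exact_mod_cast hk1'
  have hKk : max K2 K3 ≤ k := hk5.trans (by exact_mod_cast hk5')
  obtain ⟨l1, l2⟩ := lamT_log hT0
  have hlam : 0 < lamT T := by linarith
  have hpi := Real.pi_pos
  have hpi3 := Real.pi_gt_three
  have hpi4 := Real.pi_lt_four
  obtain ⟨r, hr⟩ : ∃ r : ℝ, r = k / lamT T := ⟨_, rfl⟩
  have hr0 : 0 < r := by rw [hr]; positivity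
  have hlam4 : Real.log T / 4 ≤ lamT T := by linarith
  have hr4 : r ≤ 4 * δ := by
    rw [hr, div_le_iff₀ hlam]
    linarith [mul_le_mul_of_nonneg_left hlam4 hδ.le]
  have hrL : max K2 K3 ≤ r * Real.log T := by
    have : (k:ℝ) * 1 ≤ r * Real.log T := by
      rw [hr, div_mul_eq_mul_div, le_div_iff₀ hlam]
      linarith [mul_le_mul_of_nonneg_left (show lamT T ≤ Real.log T by linarith) (show (0:ℝ) ≤ k by linarith)]
    linarith
  obtain ⟨B, hB, hBv, hg⟩ := hgood T hT1' k hk1 (hkδ.trans (mul_le_mul_of_nonneg_right d1 (by linarith)))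
  rw [← hr] at hg
  have hcdf1 := hc1 T hT2' r hr0 ((le_max_left _ _).trans hrL) (by linarith)
  have hcdf2 := hc2 T hT3' r hr0 ((le_max_right _ _).trans hrL) (by linarith)
  have h400 : 400 * (k:ℝ) ≤ Real.log T := by
    linarith [mul_le_mul_of_nonneg_right d4 (show 0 ≤ Real.log T by linarith)]
  have hdy := hdya T hT4' k h400
  have hC2 : C2c (Fy r) := (hkb r hr0 (by linarith)).1
  have hcont : ContinuousOn (XF (Fy r) T) (Icc T (2 * T)) := Pool.Agent.H358.GA.cdf_XF_contOn hC2 (by linarith)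
  obtain ⟨S1, hS1⟩ : ∃ S1 : Set ℝ, S1 = {t : ℝ | t ∈ Icc T (2 * T) ∧ XF (Fy r) T t ≤ -q + e} := ⟨_, rfl⟩
  obtain ⟨S2, hS2⟩ : ∃ S2 : Set ℝ, S2 = {t : ℝ | t ∈ Icc T (2 * T) ∧ XF (Fy r) T t ≤ -q - 2 * e} := ⟨_, rfl⟩
  rw [← hS1] at hcdf1
  rw [← hS2] at hcdf2
  have hS2m : MeasurableSet S2 := by
    rw [hS2]
    exact (hcont.preimage_isClosed_of_isClosed isClosed_Icc isClosed_Iic).measurableSet
  have hS1f : volume S1 ≠ ⊤ := by
    refine ne_top_of_le_ne_top (b := volume (Icc T (2 * T))) (by rw [Real.volume_Icc]; exact ENNReal.ofReal_ne_top) (measure_mono ?_)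
    rw [hS1]
    exact fun t ht => ht.1
  have hS2s : S2 ⊆ Icc T (2 * T) := by
    rw [hS2]
    exact fun t ht => ht.1
  have hS2f : volume S2 ≠ ⊤ :=
    ne_top_of_le_ne_top (b := volume (Icc T (2 * T))) (by rw [Real.volume_Icc]; exact ENNReal.ofReal_ne_top) (measure_mono hS2s)
  -- the measures
  have hp0 := Phi_nonneg a
  have hp1 := Phi_le_one a
  have hv1 : volume S1 ≤ ENNReal.ofReal (T * (1 - Phi a + 4 * e)) := by
    rw [← ENNReal.ofReal_toReal hS1f]
    apply ENNReal.ofReal_le_ofReal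
    have h1 := (abs_le.1 hcdf1).2
    have h2 : Phi (Real.sqrt 8 * (-q + e)) ≤ 1 - Phi a + 3 * e := by
      have h3 : Real.sqrt 8 * (-q + e) ≤ -a + 3 * e := by
        have : Real.sqrt 8 * (-q + e) = -a + Real.sqrt 8 * e := by rw [← hq8]; ring
        rw [this]
        linarith [mul_le_mul_of_nonneg_right h83 he.le]
      refine (Phi_mono h3).trans ((Phi_lip (show -a ≤ -a + 3 * e by linarith)).trans (le_of_eq ?_))
      rw [Phi_neg]
      ring
    change (volume S1).toReal - T * Phi (Real.sqrt 8 * (-q + e)) ≤ e * T at h1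
    linarith [mul_le_mul_of_nonneg_left h2 hT0.le]
  have hv2 : volume (Icc T (2 * T) \ S2) ≤ ENNReal.ofReal (T * (Phi a + 7 * e)) := by
    rw [measure_sdiff hS2s hS2m.nullMeasurableSet hS2f, Real.volume_Icc, ← ENNReal.ofReal_toReal hS2f,
      ← ENNReal.ofReal_sub _ ENNReal.toReal_nonneg]
    apply ENNReal.ofReal_le_ofReal
    have h1 := (abs_le.1 hcdf2).1
    have h2 : 1 - Phi a - 6 * e ≤ Phi (Real.sqrt 8 * (-q - 2 * e)) := by
      have h3 : -a - 6 * e ≤ Real.sqrt 8 * (-q - 2 * e) := by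
        have : Real.sqrt 8 * (-q - 2 * e) = -a - Real.sqrt 8 * (2 * e) := by rw [← hq8]; ring
        rw [this]
        linarith [mul_le_mul_of_nonneg_right h83 he.le]
      have h4 := Phi_lip (show -a - 6 * e ≤ -a by linarith)
      have h5 := Phi_mono h3
      rw [Phi_neg] at h4
      linarith
    change -(e * T) ≤ (volume S2).toReal - T * Phi (Real.sqrt 8 * (-q - 2 * e)) at h1
    linarith [mul_le_mul_of_nonneg_left h2 hT0.le]
  -- spacings
  have hlog2 : Real.log (2 * T) ≤ Real.log T + 1 := by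
    rw [Real.log_mul (by norm_num) hT0.ne']
    have := Real.log_two_lt_d9
    linarith
  have hlog2' : Real.log T ≤ Real.log (2 * T) := Real.log_le_log hT0 (by linarith)
  have hl2 : 0 < Real.log (2 * T) := by linarith
  obtain ⟨s, hs⟩ : ∃ s : ℝ, s = (1 - e) * (2 * Real.pi / Real.log (2 * T)) := ⟨_, rfl⟩
  obtain ⟨s2, hs2⟩ : ∃ s2 : ℝ, s2 = (1 + e) * (Real.pi / lamT T) := ⟨_, rfl⟩
  have hs0 : 0 < s := by
    rw [hs]
    have : 0 < 1 - e := by linarith
    positivity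
  have hs1 : s ≤ 1 := by
    rw [hs, mul_div_assoc', div_le_iff₀ hl2]
    have h1 : (1 - e) * (2 * Real.pi) ≤ 1 * (2 * Real.pi) := mul_le_mul_of_nonneg_right (by linarith) (by linarith)
    linarith
  have hs20 : 0 < s2 := by rw [hs2]; positivity
  have hs21 : s2 ≤ 1 / 2 := by
    rw [hs2, mul_div_assoc', div_le_iff₀ hlam]
    have h1 : (1 + e) * Real.pi ≤ 2 * 4 := mul_le_mul (by linarith) hpi4.le hpi.le (by norm_num)
    linarith
  have hratio : s2 ≤ s * (1 + 4 * e) := by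
    rw [hs2, hs]
    have h1 : Real.pi / lamT T ≤ (1 + e) * (2 * Real.pi / Real.log (2 * T)) := by
      rw [mul_div_assoc', div_le_div_iff₀ hlam hl2]
      have h2 : Real.log (2 * T) ≤ (1 + e) * (2 * lamT T) := by
        have h3 : 6 ≤ e * Real.log T := by
          have h4 : 6 / e ≤ Real.log T := by linarith
          rw [div_le_iff₀ he] at h4
          linarith
        linarith [mul_le_mul_of_nonneg_left l1 he.le]
      linarith [mul_le_mul_of_nonneg_left h2 hpi.le]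
    have h2 : (1 + e) * (1 + e) ≤ (1 - e) * (1 + 4 * e) := by nlinarith only [he, he1]
    have h3 : 0 < 2 * Real.pi / Real.log (2 * T) := by positivity
    calc (1 + e) * (Real.pi / lamT T) ≤ (1 + e) * ((1 + e) * (2 * Real.pi / Real.log (2 * T))) :=
          mul_le_mul_of_nonneg_left h1 (by linarith)
      _ = ((1 + e) * (1 + e)) * (2 * Real.pi / Real.log (2 * T)) := by ring
      _ ≤ ((1 - e) * (1 + 4 * e)) * (2 * Real.pi / Real.log (2 * T)) := mul_le_mul_of_nonneg_right h2 h3.le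
      _ = _ := by ring
  -- zeros
  have hnext : ∀ w ∈ ZD k (fun w => Ev e k w ∧ True) T, ∃ b : ℝ, w.im = 0 ∧ T < w.re ∧ w.re ≤ 2 * T ∧ iteratedDeriv k (FT Ph) w.re = 0 ∧
      w.re < b ∧ iteratedDeriv k (FT Ph) b = 0 ∧ (∀ z : ℂ, iteratedDeriv k (FT Ph) z = 0 → w.re < z.re → b ≤ z.re) ∧
      s ≤ b - w.re ∧ b - w.re ≤ 7 / lamT T := by
    intro w hw
    obtain ⟨h1, h2, h3, h4, _⟩ := (mem_ZD hT0.le).1 hw
    obtain ⟨b, h5, h6, h7, h9, h10⟩ := Ev_next h4 (by linarith) h1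
    have hlw : 0 < Real.log w.re := Real.log_pos (by linarith)
    refine ⟨b, h4.1, h2, h3, by rw [real_eq h4.1]; exact h1, h5, h6, h7, ?_, ?_⟩
    · refine le_trans ?_ h9
      rw [hs]
      apply mul_le_mul_of_nonneg_left _ (by linarith)
      exact div_le_div_of_nonneg_left (by positivity) hlw (Real.log_le_log (by linarith) h3)
    · refine h10.trans ?_
      have h11 : Real.log T ≤ Real.log w.re := Real.log_le_log hT0 h2.le
      rw [mul_div_assoc', div_le_div_iff₀ hlw hlam]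
      have h12 : (1 + e) * (2 * Real.pi) ≤ 14 := by
        have := Real.pi_lt_d2
        nlinarith only [he1, this, hpi]
      linarith [mul_le_mul_of_nonneg_right h12 hlam.le]
  have hsep : ∀ P : ℂ → Prop, ∀ x ∈ reZ k (fun w => Ev e k w ∧ P w) T, ∀ y ∈ reZ k (fun w => Ev e k w ∧ P w) T, x < y → x + s ≤ y := by
    intro P x hx y hy hxy
    unfold reZ at hx hy
    rw [Finset.mem_image] at hx hy
    obtain ⟨w, hw, rfl⟩ := hx
    obtain ⟨z, hz, rfl⟩ := hy
    obtain ⟨w1, w2, w3, w4, _⟩ := (mem_ZD hT0.le).1 hw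
    obtain ⟨z1, z2, z3, z4, _⟩ := (mem_ZD hT0.le).1 hz
    obtain ⟨b, _, _, _, _, _, _, b7, b8, _⟩ := hnext w ((mem_ZD hT0.le).2 ⟨w1, w2, w3, w4, trivial⟩)
    have := b7 z z1 hxy
    linarith
  -- the main estimate at an interval
  have hmain : ∀ w ∈ ZD k (fun w => Ev e k w ∧ True) T, ∃ g : ℝ, (Gp a k w ↔ g ≤ q) ∧
      ∀ t : ℝ, w.re ≤ t → t < w.re + s → t ≤ 2 * T → t ∈ B ∨ |g + XF (Fy r) T t| ≤ e := by
    intro w hw
    obtain ⟨b, b1, b2, b3, b4, b5, b6, b7, b8, b9⟩ := hnext w hw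
    refine ⟨k * ((b - w.re) * Real.log w.re / (2 * Real.pi) - 1), ?_, ?_⟩
    · rw [Gp_iff b1 b5 b6 b7, ← hq8, mul_assoc]
      exact mul_le_mul_iff_right₀ h8
    · intro t ht1 ht2 ht3
      by_cases htB : t ∈ B
      · exact Or.inl htB
      · right
        have h7 : 7 / lamT T ≤ 15 / lamT T := div_le_div_of_nonneg_right (by norm_num) hlam.le
        have h77 : 7 / lamT T + 7 / lamT T ≤ 15 / lamT T := by
          rw [← add_div]
          exact div_le_div_of_nonneg_right (by norm_num) hlam.le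
        refine (hg t (by linarith) ht3 htB).1 w.re b (by linarith) b5 (by linarith) b4 b6 fun v hv1 hv2 hv3 => ?_
        have := b7 v hv3 (by simpa using hv1)
        simp only [ofReal_re] at this
        linarith
  have hE1 : s * (reZ k (fun w => Ev e k w ∧ Gp a k w) T).card ≤ T * (Phi a + 9 * e) := by
    have h1 := pack (T := T) (D := B ∪ (Icc T (2 * T) \ S2)) hs0 (E := reZ k (fun w => Ev e k w ∧ Gp a k w) T) ?_ (hsep _) ?_
    · have h2 : volume ((B ∪ (Icc T (2 * T) \ S2)) ∩ Icc T (2 * T)) ≤ ENNReal.ofReal (e * T) + ENNReal.ofReal (T * (Phi a + 7 * e)) :=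
        (measure_mono Set.inter_subset_left).trans ((measure_union_le _ _).trans (add_le_add hBv hv2))
      have h3 := h1.trans (add_le_add h2 le_rfl)
      rw [← ENNReal.ofReal_add (by positivity) (by positivity), ← ENNReal.ofReal_add (by positivity) hs0.le] at h3
      rw [ENNReal.ofReal_le_ofReal_iff (by positivity)] at h3
      linarith
    · intro x hx
      unfold reZ at hx
      rw [Finset.mem_image] at hx
      obtain ⟨w, hw, rfl⟩ := hx
      obtain ⟨_, w2, w3, _⟩ := (mem_ZD hT0.le).1 hw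
      exact ⟨w2.le, w3⟩
    · intro x hx t ht1 ht2 ht3
      unfold reZ at hx
      rw [Finset.mem_image] at hx
      obtain ⟨w, hw, rfl⟩ := hx
      obtain ⟨w1, w2, w3, w4, w5⟩ := (mem_ZD hT0.le).1 hw
      obtain ⟨g, g1, g2⟩ := hmain w ((mem_ZD hT0.le).2 ⟨w1, w2, w3, w4, trivial⟩)
      rcases g2 t ht1 ht2 ht3 with h | h
      · exact Or.inl h
      · refine Or.inr ⟨⟨by linarith, ht3⟩, ?_⟩
        rw [hS2]
        rintro ⟨_, h3⟩
        have h4 := g1.1 w5
        have h5 := (abs_le.1 h).1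
        linarith
  have hE2 : s * (reZ k (fun w => Ev e k w ∧ ¬ Gp a k w) T).card ≤ T * (1 - Phi a + 6 * e) := by
    have h1 := pack (T := T) (D := B ∪ S1) hs0 (E := reZ k (fun w => Ev e k w ∧ ¬ Gp a k w) T) ?_ (hsep _) ?_
    · have h2 : volume ((B ∪ S1) ∩ Icc T (2 * T)) ≤ ENNReal.ofReal (e * T) + ENNReal.ofReal (T * (1 - Phi a + 4 * e)) :=
        (measure_mono Set.inter_subset_left).trans ((measure_union_le _ _).trans (add_le_add hBv hv1))
      have h3 := h1.trans (add_le_add h2 le_rfl)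
      have h10 : 0 ≤ T * (1 - Phi a + 4 * e) := mul_nonneg hT0.le (by linarith)
      rw [← ENNReal.ofReal_add (by positivity) h10, ← ENNReal.ofReal_add (by positivity) hs0.le] at h3
      rw [ENNReal.ofReal_le_ofReal_iff (by positivity)] at h3
      linarith
    · intro x hx
      unfold reZ at hx
      rw [Finset.mem_image] at hx
      obtain ⟨w, hw, rfl⟩ := hx
      obtain ⟨_, w2, w3, _⟩ := (mem_ZD hT0.le).1 hw
      exact ⟨w2.le, w3⟩
    · intro x hx t ht1 ht2 ht3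
      unfold reZ at hx
      rw [Finset.mem_image] at hx
      obtain ⟨w, hw, rfl⟩ := hx
      obtain ⟨w1, w2, w3, w4, w5⟩ := (mem_ZD hT0.le).1 hw
      obtain ⟨g, g1, g2⟩ := hmain w ((mem_ZD hT0.le).2 ⟨w1, w2, w3, w4, trivial⟩)
      rcases g2 t ht1 ht2 ht3 with h | h
      · exact Or.inl h
      · right
        rw [hS1]
        refine ⟨⟨by linarith, ht3⟩, ?_⟩
        have h4 : q < g := by
          by_contra hcon
          exact w5 (g1.2 (not_lt.1 hcon))
        have h5 := (abs_le.1 h).2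
        linarith
  -- the lower bound
  obtain ⟨N, hN⟩ : ∃ N : ℝ, N = ∑ w ∈ ZD k (fun _ => True) T, ordk k w := ⟨_, rfl⟩
  have hN0 : 0 ≤ N := by rw [hN]; exact Finset.sum_nonneg fun w _ => ordk_nonneg k w
  have hlow : T * (1 - 2 * e) ≤ s * (1 + 4 * e) * N := by
    have h1 : volume (Icc (T + 1) (2 * T) \ B) ≤ ENNReal.ofReal (s2 * (reZ k (fun _ => True) T).card) := by
      apply cover hs20.le
      rintro t ⟨⟨ht1, ht2⟩, htB⟩
      obtain ⟨x, hx1, hx2, hx3⟩ := (hg t (by linarith) ht2 htB).2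
      rw [← hs2] at hx1
      refine ⟨x, ?_, hx2, by linarith⟩
      unfold reZ
      rw [Finset.mem_image]
      refine ⟨(x : ℂ), (mem_ZD hT0.le).2 ⟨hx3, ?_, ?_, trivial⟩, by simp⟩
      · simp only [ofReal_re]; linarith
      · simp only [ofReal_re]; linarith
    have h2 : volume (Icc (T + 1) (2 * T)) ≤ volume (Icc (T + 1) (2 * T) \ B) + volume B := by
      refine (measure_mono ?_).trans (measure_union_le _ _)
      intro t ht
      by_cases htB : t ∈ B
      · exact Or.inr htB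
      · exact Or.inl ⟨ht, htB⟩
    have h3 := h2.trans (add_le_add h1 hBv)
    rw [Real.volume_Icc, ← ENNReal.ofReal_add (by positivity) (by positivity), ENNReal.ofReal_le_ofReal_iff (by positivity)] at h3
    have h4 : ((reZ k (fun _ => True) T).card : ℝ) ≤ N := by rw [hN]; exact card_le_sum hT0.le
    have h5 : s2 * (reZ k (fun _ => True) T).card ≤ s * (1 + 4 * e) * N :=
      mul_le_mul hratio h4 (Nat.cast_nonneg _) (by positivity)
    linarith
  -- conclusion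
  rw [cnt_ZD k _ hT0.le, cnt_ZD k _ hT0.le, ← hN]
  rw [cnt_ZD k _ hT0.le, cnt_ZD k _ hT0.le, ← hN] at hdy
  have hX : ∑ w ∈ ZD k (fun w => ¬ Ev e k w) T, ordk k w ≤ e * N := hdy.trans (mul_le_mul_of_nonneg_right (hk4 k hk4') hN0)
  have key := arith (e := e) (s := s) (N := N) (T := T) (p := Phi a) (E1 := (reZ k (fun w => Ev e k w ∧ Gp a k w) T).card)
    (E2 := (reZ k (fun w => Ev e k w ∧ ¬ Gp a k w) T).card) (X := ∑ w ∈ ZD k (fun w => ¬ Ev e k w) T, ordk k w)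
    (G := ∑ w ∈ ZD k (Gp a k) T, ordk k w) he he1 hs0 hp0 hp1 hN0 hlow hE1 hE2 hX ?_ ?_ ?_
  · change |∑ w ∈ ZD k (Gp a k) T, ordk k w - Phi a * N| ≤ ε * N
    exact key.trans (mul_le_mul_of_nonneg_right heε hN0)
  · rw [hN, ← cnt_card hT0.le, ← cnt_card hT0.le]
    have h1 := ZD_le (k := k) (P := fun _ => True) (Q := fun w => Ev e k w) (R := fun w => ¬ Ev e k w) hT0.le fun w _ => Classical.em _
    have h2 := ZD_le (k := k) (P := fun w => Ev e k w) (Q := fun w => Ev e k w ∧ Gp a k w) (R := fun w => Ev e k w ∧ ¬ Gp a k w) hT0.le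
      fun w hw => (Classical.em (Gp a k w)).imp (fun h => ⟨hw, h⟩) fun h => ⟨hw, h⟩
    linarith
  · rw [← cnt_card hT0.le]
    exact ZD_le hT0.le fun w hw => (Classical.em (Ev e k w)).imp (fun h => ⟨h, hw⟩) id
  · rw [← cnt_card hT0.le]
    exact ZD_mono hT0.le fun w hw => hw.2

end Pool.Agent.H487.GA
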