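import Pool.Agent.H487.GA.Fin5

set_option autoImplicit false

/-!
Project GA: the gap formula for almost all zeros.
-/

open Finset Complex Filter Topology Metric Set MeasureTheory

namespace Pool.Agent.H487.GA

open Pool.Agent.Helper242.KK (FT Ph)
open Pool.Agent.H477.Jen
open Pool.Agent.H477.E
open Pool.Agent.H487.ED (Ev)

/-- `Im Ξ'/Ξ - λ` is `Re ζ'/ζ` up to a bounded error -/
theorem UU_zeta {T x r : ℝ} (hT : 10 ≤ T) (hx1 : T / 2 ≤ x) (hx2 : x ≤ 3 * T) (hr : 0 < r) (hr1 : r ≤ 1)
    (hne : FT Ph ((x : ℂ) - I * r) ≠ 0) :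
    riemannZeta (1 / 2 + r + I * x) ≠ 0 ∧
    |UU T ((x : ℂ) - I * r) - (deriv riemannZeta (1 / 2 + r + I * x) / riemannZeta (1 / 2 + r + I * x)).re| ≤ 8 := by
  set z : ℂ := (x : ℂ) - I * r with hz
  set s : ℂ := 1 / 2 + r + I * x with hs
  have hT0 : 0 < T := by linarith
  have hx0 : 0 < x := by linarith
  have hsre : s.re = 1 / 2 + r := by simp [hs]
  have hsim : s.im = x := by simp [hs]
  have hs1 : s ≠ 1 := by
    intro h
    have := congrArg Complex.im h
    rw [hsim] at this
    simp only [one_im] at this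
    linarith
  have hsz : s = 1 / 2 + I * z := by
    rw [hs, hz]
    have hI := Complex.I_mul_I
    linear_combination (r:ℂ) * hI
  have hspos : 0 < s.re := by rw [hsre]; linarith
  have hev : FT Ph =ᶠ[𝓝 z] fun w => HR (1 / 2 + I * w) * riemannZeta (1 / 2 + I * w) := by
    have hc : ContinuousAt (fun w : ℂ => (1 / 2 + I * w)) z := by fun_prop
    have h1 : ∀ᶠ w in 𝓝 z, 0 < ((1 / 2 + I * w : ℂ)).re := by
      have : ContinuousAt (fun w : ℂ => (1 / 2 + I * w : ℂ).re) z := by fun_prop
      apply this.eventually_const_lt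
      show 0 < (1 / 2 + I * z : ℂ).re
      rw [← hsz]; exact hspos
    have h2 : ∀ᶠ w in 𝓝 z, (1 / 2 + I * w : ℂ) ≠ 1 := by
      apply hc.eventually_ne
      rw [← hsz]; exact hs1
    filter_upwards [h1, h2] with w hw1 hw2
    exact FT_Ph_eq rfl hw1 hw2
  have hR : HasDerivAt (fun w : ℂ => HR (1 / 2 + I * w)) (LR s * HR s * I) z := by
    have h1 : HasDerivAt HR (LR s * HR s) (1 / 2 + I * z) := by
      rw [← hsz]; exact hasDerivAt_HR hspos hs1
    have h2 : HasDerivAt (fun w : ℂ => (1 / 2 + I * w : ℂ)) I z := by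
      simpa using ((hasDerivAt_id z).const_mul I).const_add (1 / 2 : ℂ)
    exact h1.comp z h2
  have hZ : HasDerivAt (fun w : ℂ => riemannZeta (1 / 2 + I * w)) (deriv riemannZeta s * I) z := by
    have h1 : HasDerivAt riemannZeta (deriv riemannZeta s) (1 / 2 + I * z) := by
      rw [← hsz]; exact (differentiableAt_riemannZeta hs1).hasDerivAt
    have h2 : HasDerivAt (fun w : ℂ => (1 / 2 + I * w : ℂ)) I z := by
      simpa using ((hasDerivAt_id z).const_mul I).const_add (1 / 2 : ℂ)
    exact h1.comp z h2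
  have hval : FT Ph z = HR s * riemannZeta s := FT_Ph_eq hsz hspos hs1
  have hz0 : riemannZeta s ≠ 0 := by
    intro h
    rw [h, mul_zero] at hval
    exact hne hval
  have hH0 : HR s ≠ 0 := HR_ne hspos hs1
  have hder : deriv (FT Ph) z = LR s * HR s * I * riemannZeta s + HR s * (deriv riemannZeta s * I) := by
    rw [hev.deriv_eq]
    have := (hR.mul hZ).deriv
    rw [← hsz] at this
    exact this
  have hquot : deriv (FT Ph) z / FT Ph z = I * (LR s + deriv riemannZeta s / riemannZeta s) := by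
    rw [hder, hval]
    field_simp
  have hLR : ‖LR s - lamR x‖ ≤ 34 / x := by
    have := LR_bound (s := s) (t := x) (v := 1) (by linarith) hspos (by rw [hsim]; linarith)
      (by
        have e : s - I * (x : ℂ) = ((1 / 2 + r : ℝ) : ℂ) := by rw [hs]; push_cast; ring
        rw [e, Complex.norm_real, Real.norm_eq_abs, abs_of_pos (by linarith), norm_one]
        linarith)
    refine this.trans (le_of_eq ?_)
    norm_num
  have hLR2 : ‖LR s - lamR x‖ ≤ 34 / 5 := by
    refine hLR.trans ?_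
    apply div_le_div_of_nonneg_left (by norm_num) (by norm_num) (by linarith)
  have hpi := Real.pi_pos
  have hre : (lamR x).re - lamT T = 1 / 2 * (Real.log x - Real.log T) := by
    rw [lamR_re hx0]
    unfold lamT
    rw [Real.log_div hT0.ne' (by positivity)]
    ring
  have hl1 : Real.log x - Real.log T ≤ 2 := by
    rw [← Real.log_div hx0.ne' hT0.ne']
    have h3 : x / T ≤ 3 := by rw [div_le_iff₀ hT0]; linarith
    have := Real.log_le_sub_one_of_pos (show 0 < x / T by positivity)
    linarith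
  have hl2 : Real.log T - Real.log x ≤ 1 := by
    rw [← Real.log_div hT0.ne' hx0.ne']
    have h3 : T / x ≤ 2 := by rw [div_le_iff₀ hx0]; linarith
    have := Real.log_le_sub_one_of_pos (show 0 < T / x by positivity)
    linarith
  refine ⟨hz0, ?_⟩
  have e : UU T z - (deriv riemannZeta s / riemannZeta s).re = (LR s - lamR x).re + ((lamR x).re - lamT T) := by
    unfold UU
    rw [hquot]
    simp only [Complex.mul_im, I_re, I_im, Complex.add_re, Complex.sub_re]
    ring
  rw [e, hre]
  have h1 := (Complex.abs_re_le_norm _).trans hLR2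
  rw [abs_le] at h1 ⊢
  constructor <;> linarith [h1.1, h1.2]

/-- the zero `w` is real and simple, both neighbours are real, and both gaps are given by the formula -/
def Fm (ε r : ℝ) (k : ℕ) (w : ℂ) : Prop := w.im = 0 ∧ iteratedDeriv (k + 1) (FT Ph) w ≠ 0 ∧ riemannZeta (1 / 2 + r + I * w.re) ≠ 0 ∧
  ∃ a b : ℝ, a < w.re ∧ w.re < b ∧ iteratedDeriv k (FT Ph) a = 0 ∧ iteratedDeriv k (FT Ph) b = 0 ∧
  (∀ z : ℂ, iteratedDeriv k (FT Ph) z = 0 → a < z.re → z.re < b → z = w) ∧
  |k * ((w.re - a) * Real.log w.re / (2 * Real.pi) - 1) +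
    r * (deriv riemannZeta (1 / 2 + r + I * w.re) / riemannZeta (1 / 2 + r + I * w.re)).re| ≤ ε ∧
  |k * ((b - w.re) * Real.log w.re / (2 * Real.pi) - 1) +
    r * (deriv riemannZeta (1 / 2 + r + I * w.re) / riemannZeta (1 / 2 + r + I * w.re)).re| ≤ ε

theorem form (hGAPL : S_GAPL) (hLGV : S_LGV) (hGDX : S_GDX) (hSPC : Pool.Agent.H487.ED.S_SPC) (hDYA : Pool.Agent.H487.ED.S_DYA)
    {ε : ℝ} (hε : 0 < ε) : ∃ (k0 : ℕ) (δ T0 : ℝ), 0 < δ ∧ ∀ T : ℝ, T0 ≤ T → ∀ k : ℕ, k0 ≤ k → (k : ℝ) ≤ δ * Real.log T →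
      cnt k (fun w => ¬ Fm ε (k / lamT T) k w) (2 * T) - cnt k (fun w => ¬ Fm ε (k / lamT T) k w) T ≤
        ε * (cnt k (fun _ => True) (2 * T) - cnt k (fun _ => True) T) := by
  obtain ⟨e, he, he1, heε⟩ : ∃ e : ℝ, 0 < e ∧ e ≤ 1 / 100 ∧ 20 * e ≤ ε := by
    refine ⟨min (ε / 20) (1 / 100), by positivity, min_le_right _ _, ?_⟩
    have := min_le_left (ε / 20) (1 / 100)
    linarith
  obtain ⟨k1, δ1, T1, hδ1, hT1, hgood⟩ := good2 hGAPL hLGV hGDX hSPC he (by linarith)
  obtain ⟨c, C, T4, hc, hdya⟩ := hDYA e he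
  obtain ⟨k4, hk4⟩ : ∃ k4 : ℕ, ∀ k : ℕ, k4 ≤ k → C * Real.exp (-c * k) ≤ e := by
    have h1 : Tendsto (fun k : ℕ => Real.exp (-c * k)) atTop (𝓝 0) := by
      apply Real.tendsto_exp_atBot.comp
      have h2 : Tendsto (fun k : ℕ => -(c * (k:ℝ))) atTop atBot :=
        tendsto_neg_atTop_atBot.comp (Tendsto.const_mul_atTop hc tendsto_natCast_atTop_atTop)
      exact h2.congr fun k => by ring
    have h2 : Tendsto (fun k : ℕ => C * Real.exp (-c * k)) atTop (𝓝 (C * 0)) := h1.const_mul C
    rw [mul_zero] at h2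
    exact eventually_atTop.1 (h2.eventually_le_const he)
  obtain ⟨δ, hδ, d1, d2, d4⟩ : ∃ δ : ℝ, 0 < δ ∧ δ ≤ δ1 ∧ 32 * δ ≤ e ∧ 400 * δ ≤ 1 := by
    refine ⟨min δ1 (min (e / 32) (1 / 400)), by positivity, min_le_left _ _, ?_, ?_⟩
    · have := (min_le_right δ1 (min (e / 32) (1 / 400))).trans (min_le_left _ _); linarith
    · have := (min_le_right δ1 (min (e / 32) (1 / 400))).trans (min_le_right _ _); linarith
  obtain ⟨T5, hT5⟩ : ∃ T5 : ℝ, ∀ T : ℝ, T5 ≤ T → 100 + 6 / e ≤ Real.log T :=
    eventually_atTop.1 (Real.tendsto_log_atTop.eventually_ge_atTop _)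
  refine ⟨max (max k1 k4) 1, δ, max (max T1 T4) (max T5 (10 + 2 / e)), hδ, ?_⟩
  intro T hT k hk hkδ
  simp only [max_le_iff] at hT hk
  obtain ⟨⟨hT1', hT4'⟩, hT5', hT10⟩ := hT
  obtain ⟨⟨hk1, hk4'⟩, hk1'⟩ := hk
  have h2e : 0 < 2 / e := by positivity
  have hT0 : 0 < T := by linarith
  have heT : 2 ≤ e * T := by
    have h1 : 2 / e ≤ T := by linarith
    rw [div_le_iff₀ he] at h1
    linarith
  have hL := hT5 T hT5'
  have h6e : 0 < 6 / e := by positivity
  have hkR : (1:ℝ) ≤ k := by exact_mod_cast hk1'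
  obtain ⟨l1, l2⟩ := lamT_log hT0
  have hlam : 0 < lamT T := by linarith
  have hpi := Real.pi_pos
  have hpi3 := Real.pi_gt_three
  have hpi4 := Real.pi_lt_four
  obtain ⟨r, hr⟩ : ∃ r : ℝ, r = k / lamT T := ⟨_, rfl⟩
  have hr0 : 0 < r := by rw [hr]; positivity
  have hlam4 : Real.log T / 4 ≤ lamT T := by linarith
  have hr4 : r ≤ 4 * δ := by
    rw [hr, div_le_iff₀ hlam]
    linarith [mul_le_mul_of_nonneg_left hlam4 hδ.le]
  have hr1 : r ≤ 1 := by linarith
  obtain ⟨B, hB, hBv, hg⟩ := hgood T hT1' k hk1 (hkδ.trans (mul_le_mul_of_nonneg_right d1 (by linarith)))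
  rw [← hr] at hg
  have h400 : 400 * (k:ℝ) ≤ Real.log T := by
    linarith [mul_le_mul_of_nonneg_right d4 (show 0 ≤ Real.log T by linarith)]
  have hdy := hdya T hT4' k h400
  -- spacings
  have hlog2 : Real.log (2 * T) ≤ Real.log T + 1 := by
    rw [Real.log_mul (by norm_num) hT0.ne']
    have := Real.log_two_lt_d9
    linarith
  have hlog2' : Real.log T ≤ Real.log (2 * T) := Real.log_le_log hT0 (by linarith)
  have hl2 : 0 < Real.log (2 * T) := by linarith
  obtain ⟨s, hs⟩ : ∃ s : ℝ, s = (1 - e) * (2 * Real.pi / Real.log (2 * T)) := ⟨_, rfl⟩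
  obtain ⟨s2, hs2⟩ : ∃ s2 : ℝ, s2 = (1 + e) * (Real.pi / lamT T) := ⟨_, rfl⟩
  have hs0 : 0 < s := by
    rw [hs]
    have : 0 < 1 - e := by linarith
    positivity
  have hs1 : s ≤ 1 := by
    rw [hs, mul_div_assoc', div_le_iff₀ hl2]
    have h1 : (1 - e) * (2 * Real.pi) ≤ 1 * (2 * Real.pi) := mul_le_mul_of_nonneg_right (by linarith) (by linarith)
    linarith
  have hs20 : 0 < s2 := by rw [hs2]; positivity
  have hs21 : s2 ≤ 1 / 2 := by
    rw [hs2, mul_div_assoc', div_le_iff₀ hlam]
    have h1 : (1 + e) * Real.pi ≤ 2 * 4 := mul_le_mul (by linarith) hpi4.le hpi.le (by norm_num)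
    linarith
  have hratio : s2 ≤ s * (1 + 4 * e) := by
    rw [hs2, hs]
    have h1 : Real.pi / lamT T ≤ (1 + e) * (2 * Real.pi / Real.log (2 * T)) := by
      rw [mul_div_assoc', div_le_div_iff₀ hlam hl2]
      have h2 : Real.log (2 * T) ≤ (1 + e) * (2 * lamT T) := by
        have h3 : 6 ≤ e * Real.log T := by
          have h4 : 6 / e ≤ Real.log T := by linarith
          rw [div_le_iff₀ he] at h4
          linarith
        linarith [mul_le_mul_of_nonneg_left l1 he.le]
      linarith [mul_le_mul_of_nonneg_left h2 hpi.le]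
    have h2 : (1 + e) * (1 + e) ≤ (1 - e) * (1 + 4 * e) := by nlinarith only [he, he1]
    have h3 : 0 < 2 * Real.pi / Real.log (2 * T) := by positivity
    calc (1 + e) * (Real.pi / lamT T) ≤ (1 + e) * ((1 + e) * (2 * Real.pi / Real.log (2 * T))) :=
          mul_le_mul_of_nonneg_left h1 (by linarith)
      _ = ((1 + e) * (1 + e)) * (2 * Real.pi / Real.log (2 * T)) := by ring
      _ ≤ ((1 - e) * (1 + 4 * e)) * (2 * Real.pi / Real.log (2 * T)) := mul_le_mul_of_nonneg_right h2 h3.le
      _ = _ := by ring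
  have h7 : 7 / lamT T + 7 / lamT T ≤ 15 / lamT T := by
    rw [← add_div]
    exact div_le_div_of_nonneg_right (by norm_num) hlam.le
  have h70 : 0 < 7 / lamT T := by positivity
  have h71 : 7 / lamT T ≤ 1 := by
    rw [div_le_iff₀ hlam]
    linarith
  have hs7 : s ≤ 7 / lamT T := by
    rw [hs, mul_div_assoc', div_le_div_iff₀ hl2 hlam]
    have h1 : (1 - e) * (2 * Real.pi) ≤ 7 := by
      have := Real.pi_lt_d2
      nlinarith only [he, this, hpi]
    linarith [mul_le_mul_of_nonneg_right h1 hlam.le]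
  have hup : ∀ x g : ℝ, T < x → |g * Real.log x / (2 * Real.pi) - 1| ≤ e → s ≤ g ∨ 2 * T < x → g ≤ 7 / lamT T := by
    intro x g hx hg _
    have h11 : Real.log T ≤ Real.log x := Real.log_le_log hT0 hx.le
    have hlw : 0 < Real.log x := by linarith
    have h12 := (abs_le.1 hg).2
    rw [sub_le_iff_le_add, div_le_iff₀ (by positivity)] at h12
    rw [le_div_iff₀ hlam]
    have h13 : (e + 1) * (2 * Real.pi) ≤ 7 := by
      have := Real.pi_lt_d2
      nlinarith only [he1, this, hpi]
    rcases le_or_gt g 0 with h14 | h14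
    · linarith [mul_nonpos_of_nonpos_of_nonneg h14 hlam.le]
    · have h15 : g * lamT T ≤ g * (Real.log x / 2) := mul_le_mul_of_nonneg_left (by linarith) h14.le
      linarith
  have hlo : ∀ x g : ℝ, T < x → x ≤ 2 * T → |g * Real.log x / (2 * Real.pi) - 1| ≤ e → s ≤ g := by
    intro x g hx hx2 hg
    have h11 : Real.log x ≤ Real.log (2 * T) := Real.log_le_log (by linarith) hx2
    have hlw : 0 < Real.log x := Real.log_pos (by linarith)
    have h12 := (abs_le.1 hg).1
    rw [neg_le_sub_iff_le_add, ← sub_le_iff_le_add, le_div_iff₀ (by positivity)] at h12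
    rw [hs, mul_div_assoc', div_le_iff₀ hl2]
    have h14 : 0 < g := by
      by_contra hcon
      have h16 : g * Real.log x ≤ 0 := mul_nonpos_of_nonpos_of_nonneg (not_lt.1 hcon) hlw.le
      have h17 : 0 < (1 - e) * (2 * Real.pi) := by
        have : 0 < 1 - e := by linarith
        positivity
      linarith
    linarith [mul_le_mul_of_nonneg_left h11 h14.le]
  -- the exceptional evenly spaced zeros
  have hsep : ∀ x ∈ reZ k (fun w => Ev e k w ∧ ¬ Fm ε r k w) T, ∀ y ∈ reZ k (fun w => Ev e k w ∧ ¬ Fm ε r k w) T, x < y → x + s ≤ y := by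
    intro x hx y hy hxy
    unfold reZ at hx hy
    rw [Finset.mem_image] at hx hy
    obtain ⟨w, hw, rfl⟩ := hx
    obtain ⟨z, hz, rfl⟩ := hy
    obtain ⟨w1, w2, w3, w4, _⟩ := (mem_ZD hT0.le).1 hw
    obtain ⟨z1, z2, z3, z4, _⟩ := (mem_ZD hT0.le).1 hz
    obtain ⟨v1, v2, a, b, v3, v4, v5, v6, v7, v8, v9⟩ := w4
    have h1 := hlo w.re (b - w.re) w2 w3 v9
    by_contra hcon
    have h2 := v7 z z1 (by linarith) (by linarith)
    rw [h2] at hxy
    exact lt_irrefl _ hxy
  have hE : s * (reZ k (fun w => Ev e k w ∧ ¬ Fm ε r k w) T).card ≤ 2 * (e * T) := by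
    have h1 := pack (T := T) (D := B) hs0 (E := reZ k (fun w => Ev e k w ∧ ¬ Fm ε r k w) T) ?_ hsep ?_
    · have h2 : volume (B ∩ Icc T (2 * T)) ≤ ENNReal.ofReal (e * T) :=
        (measure_mono Set.inter_subset_left).trans hBv
      have h3 := h1.trans (add_le_add h2 le_rfl)
      rw [← ENNReal.ofReal_add (by positivity) hs0.le] at h3
      rw [ENNReal.ofReal_le_ofReal_iff (by positivity)] at h3
      linarith
    · intro x hx
      unfold reZ at hx
      rw [Finset.mem_image] at hx
      obtain ⟨w, hw, rfl⟩ := hx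
      obtain ⟨_, w2, w3, _⟩ := (mem_ZD hT0.le).1 hw
      exact ⟨w2.le, w3⟩
    · intro x hx t ht1 ht2 ht3
      unfold reZ at hx
      rw [Finset.mem_image] at hx
      obtain ⟨w, hw, rfl⟩ := hx
      obtain ⟨w1, w2, w3, w4, w5⟩ := (mem_ZD hT0.le).1 hw
      by_contra htB
      apply w5
      obtain ⟨v1, v2, a, b, v3, v4, v5, v6, v7, v8, v9⟩ := w4
      have hgb := hlo w.re (b - w.re) w2 w3 v9
      have hga := hlo w.re (w.re - a) w2 w3 v8
      have hgb7 := hup w.re (b - w.re) w2 v9 (Or.inl hgb)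
      have hga7 := hup w.re (w.re - a) w2 v8 (Or.inl hga)
      obtain ⟨G, _⟩ := hg t (by linarith) ht3 htB
      have hwz : iteratedDeriv k (FT Ph) (w.re : ℂ) = 0 := by rw [real_eq v1]; exact w1
      have hx0 : |w.re - t| ≤ 15 / lamT T := by
        rw [abs_le]
        constructor <;> linarith
      obtain ⟨n1, f1⟩ := G w.re b (by linarith) v4 (by linarith) hwz v6 (fun v hv1 hv2 hv3 => by
        have := v7 v hv3 (by simp only [ofReal_re]; linarith) (by simpa using hv2)
        rw [← this] at hv1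
        simp at hv1) w.re hx0
      obtain ⟨_, f2⟩ := G a w.re (by linarith) v3 (by linarith) v5 hwz (fun v hv1 hv2 hv3 => by
        have := v7 v hv3 (by simpa using hv1) (by simp only [ofReal_re]; linarith)
        rw [← this] at hv2
        simp at hv2) w.re hx0
      obtain ⟨z1, z2⟩ := UU_zeta (T := T) (x := w.re) (by linarith) (by linarith) (by linarith) hr0 hr1 n1
      refine ⟨v1, v2, z1, a, b, v3, v4, v5, v6, v7, ?_, ?_⟩
      · have h8 : |r * UU T ((w.re : ℂ) - I * r) - r * (deriv riemannZeta (1 / 2 + r + I * w.re) / riemannZeta (1 / 2 + r + I * w.re)).re| ≤ e := by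
          rw [← mul_sub, abs_mul, abs_of_pos hr0]
          exact (mul_le_mul_of_nonneg_left z2 hr0.le).trans (by linarith)
        have h9 : |k * ((w.re - a) * Real.log w.re / (2 * Real.pi) - 1) - k * ((w.re - a) * Real.log a / (2 * Real.pi) - 1)| ≤ e := by
          have ha : T / 2 ≤ a := by linarith
          have ha0 : 0 < a := by linarith
          have e1 : (k:ℝ) * ((w.re - a) * Real.log w.re / (2 * Real.pi) - 1) - k * ((w.re - a) * Real.log a / (2 * Real.pi) - 1) =
              k * (w.re - a) / (2 * Real.pi) * (Real.log w.re - Real.log a) := by ring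
          have h10 : 0 ≤ Real.log w.re - Real.log a := by
            have := Real.log_le_log ha0 v3.le
            linarith
          have h11 : Real.log w.re - Real.log a ≤ 2 / T := by
            rw [← Real.log_div (by linarith) ha0.ne']
            refine (Real.log_le_sub_one_of_pos (by have : 0 < w.re := by linarith
                                                   positivity)).trans ?_
            rw [div_sub_one ha0.ne', div_le_div_iff₀ ha0 hT0]
            linarith [mul_le_mul_of_nonneg_right (show w.re - a ≤ 1 by linarith) hT0.le]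
          have h12 : (k:ℝ) * (w.re - a) / (2 * Real.pi) ≤ k * 1 / 6 := by
            apply div_le_div₀ (by positivity) _ (by norm_num) (by linarith)
            exact mul_le_mul_of_nonneg_left (by linarith) (by linarith)
          have h13 : 0 ≤ (k:ℝ) * (w.re - a) / (2 * Real.pi) := by
            have : 0 < w.re - a := by linarith
            positivity
          rw [e1, abs_of_nonneg (mul_nonneg h13 h10)]
          refine (mul_le_mul h12 h11 h10 (by positivity)).trans ?_
          have h14 : (k:ℝ) ≤ T / 400 := by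
            have := Real.log_le_sub_one_of_pos hT0
            linarith
          rw [mul_div_assoc', div_le_iff₀ hT0]
          have h15 : r * T ≤ e * T := mul_le_mul_of_nonneg_right (by linarith) hT0.le
          have h16 : (k:ℝ) = r * lamT T := by rw [hr]; field_simp
          have h17 : lamT T ≤ T := by
            have := Real.log_le_sub_one_of_pos hT0
            linarith
          linarith [mul_le_mul_of_nonneg_left h17 hr0.le]
        rw [abs_le] at h8 h9 f2 ⊢
        constructor <;> linarith [h8.1, h8.2, h9.1, h9.2, f2.1, f2.2]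
      · have h8 : |r * UU T ((w.re : ℂ) - I * r) - r * (deriv riemannZeta (1 / 2 + r + I * w.re) / riemannZeta (1 / 2 + r + I * w.re)).re| ≤ e := by
          rw [← mul_sub, abs_mul, abs_of_pos hr0]
          exact (mul_le_mul_of_nonneg_left z2 hr0.le).trans (by linarith)
        rw [abs_le] at h8 f1 ⊢
        constructor <;> linarith [h8.1, h8.2, f1.1, f1.2]
  -- the lower bound
  obtain ⟨N, hN⟩ : ∃ N : ℝ, N = ∑ w ∈ ZD k (fun _ => True) T, ordk k w := ⟨_, rfl⟩
  have hN0 : 0 ≤ N := by rw [hN]; exact Finset.sum_nonneg fun w _ => ordk_nonneg k w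
  have hlow : T * (1 - 2 * e) ≤ s * (1 + 4 * e) * N := by
    have h1 : volume (Icc (T + 1) (2 * T) \ B) ≤ ENNReal.ofReal (s2 * (reZ k (fun _ => True) T).card) := by
      apply cover hs20.le
      rintro t ⟨⟨ht1, ht2⟩, htB⟩
      obtain ⟨x, hx1, hx2, hx3⟩ := (hg t (by linarith) ht2 htB).2
      rw [← hs2] at hx1
      refine ⟨x, ?_, hx2, by linarith⟩
      unfold reZ
      rw [Finset.mem_image]
      refine ⟨(x : ℂ), (mem_ZD hT0.le).2 ⟨hx3, ?_, ?_, trivial⟩, by simp⟩
      · simp only [ofReal_re]; linarith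
      · simp only [ofReal_re]; linarith
    have h2 : volume (Icc (T + 1) (2 * T)) ≤ volume (Icc (T + 1) (2 * T) \ B) + volume B := by
      refine (measure_mono ?_).trans (measure_union_le _ _)
      intro t ht
      by_cases htB : t ∈ B
      · exact Or.inr htB
      · exact Or.inl ⟨ht, htB⟩
    have h3 := h2.trans (add_le_add h1 hBv)
    rw [Real.volume_Icc, ← ENNReal.ofReal_add (by positivity) (by positivity), ENNReal.ofReal_le_ofReal_iff (by positivity)] at h3
    have h4 : ((reZ k (fun _ => True) T).card : ℝ) ≤ N := by rw [hN]; exact card_le_sum hT0.le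
    have h5 : s2 * (reZ k (fun _ => True) T).card ≤ s * (1 + 4 * e) * N :=
      mul_le_mul hratio h4 (Nat.cast_nonneg _) (by positivity)
    linarith
  rw [cnt_ZD k _ hT0.le, cnt_ZD k _ hT0.le, ← hN]
  rw [cnt_ZD k _ hT0.le, cnt_ZD k _ hT0.le, ← hN] at hdy
  rw [← hr]
  have hX : ∑ w ∈ ZD k (fun w => ¬ Ev e k w) T, ordk k w ≤ e * N := hdy.trans (mul_le_mul_of_nonneg_right (hk4 k hk4') hN0)
  have h1 := ZD_le (k := k) (P := fun w => ¬ Fm ε r k w) (Q := fun w => Ev e k w ∧ ¬ Fm ε r k w) (R := fun w => ¬ Ev e k w) hT0.le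
    fun w hw => (Classical.em (Ev e k w)).imp (fun h => ⟨h, hw⟩) id
  rw [cnt_card hT0.le] at h1
  have h2 : ((reZ k (fun w => Ev e k w ∧ ¬ Fm ε r k w) T).card : ℝ) ≤ 3 * e * N := by
    have h3 : T ≤ s * N * (11 / 10) := by
      linarith [mul_le_mul_of_nonneg_left he1 hT0.le, mul_le_mul_of_nonneg_left he1 (mul_nonneg hs0.le hN0), mul_nonneg hs0.le hN0]
    have h4 : s * (reZ k (fun w => Ev e k w ∧ ¬ Fm ε r k w) T).card ≤ s * (3 * e * N) := by
      have h5 : e * T ≤ e * (s * N * (11 / 10)) := mul_le_mul_of_nonneg_left h3 he.le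
      have h6 : 0 ≤ e * (s * N) := by positivity
      linarith
    exact le_of_mul_le_mul_left h4 hs0
  have h3 : 4 * e * N ≤ ε * N := mul_le_mul_of_nonneg_right (by linarith) hN0
  linarith

end Pool.Agent.H487.GA
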