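import Pool.Agent.H487.EF.Stm

set_option autoImplicit false

/-!
# Project GA (helper487): the Gaussian law of the gaps between the zeros of the derivatives of `ξ`

Goal (very famous page, MP_7eacff_nt / MP_21f43f_nt, GUE hypothesis for spacings): unconditionally, for `m → ∞`, `m = o(log T)` the consecutive gaps of the zeros
`1/2 + iγ` of `ξ^{(m)}`, `T < γ ≤ 2T`, satisfy `√8 m ((γ' - γ) log γ / (2π) - 1) → N(0,1)` in law.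

Method: near a typical height `t` the gap is `π / Im (Ξ'/Ξ)(t - ir)`, `r = m/λ`, `λ = (log (t/2π))/2` (saddle point: statements `S_PREC`, `S_GAPL`), and
`r (Im (Ξ'/Ξ)(t - ir) - λ)` is a mesoscopic linear statistic of the zeros of `ζ` with the Poisson kernel, variance `1/8` (CLT of helper203, `Pool/Agent/H203/ME`).

Deliver each as `theorem X_proof : S_X` (or with the listed hypotheses `S_Y → ... → S_X`).
-/

open Finset Complex Filter Topology Metric Set MeasureTheory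

namespace Pool.Agent.H487.GA

open Pool.Agent.Helper242.KK (FT Ph)
open Pool.Agent.H477.Jen
open Pool.Agent.H477.E

noncomputable section

/-! ### definitions (those of `Pool/Agent/H203/ME/Defs.lean`, copied to keep the imports light; `ZI = H370.zset riemannZeta`, `mz = H370.mult riemannZeta`) -/

/-- multiplicity of a zero of zeta -/
def mz (s : ℂ) : ℕ := analyticOrderNatAt riemannZeta s

/-- the nontrivial zeros -/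
def ZS : Set ℂ := {s : ℂ | riemannZeta s = 0 ∧ 0 < s.re ∧ s.re < 1}

/-- the nontrivial zeros with ordinate in `(A, B]` -/
def ZI (A B : ℝ) : Set ℂ := {s : ℂ | 0 < s.re ∧ s.re < 1 ∧ A < s.im ∧ s.im ≤ B ∧ riemannZeta s = 0}

/-- Fourier transform `∫ F(s) e^{-i ξ s} ds` -/
def FF (F : ℝ → ℝ) (ξ : ℝ) : ℂ := ∫ s : ℝ, (F s : ℂ) * cexp (-(((ξ * s : ℝ) : ℂ) * I))

/-- twice continuously differentiable, supported in `[-1, 1]` -/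
structure C2c (F : ℝ → ℝ) : Prop where
  cd : ContDiff ℝ 2 F
  supp : ∀ x : ℝ, 1 ≤ |x| → F x = 0

/-- the admissible test functions at height `T`, `L = log T` -/
structure Adm (η V L : ℝ) (F : ℝ → ℝ) : Prop where
  c2 : C2c F
  l1 : ∫ x : ℝ, |F x| ≤ η
  l2 : ∫ x : ℝ, |deriv (deriv F) x| ≤ η * L
  va : ∫ ξ in Ioi (0 : ℝ), ξ * ‖FF F ξ‖ ^ 2 ≤ V
  tv : ∫ ξ in Ioi (0 : ℝ), (‖FF F ξ‖ ^ 2 + 2 * ξ * ‖FF F ξ‖ * ‖deriv (FF F) ξ‖) ≤ η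

/-- the centered linear statistic of the ordinates -/
def XF (F : ℝ → ℝ) (T t : ℝ) : ℝ :=
  (∑ᶠ s ∈ ZS, (mz s : ℝ) * F (s.im - t)) - Real.log T / (2 * Real.pi) * ∫ x : ℝ, F x

/-- the limiting variance -/
def sg (F : ℝ → ℝ) : ℝ := 1 / (2 * Real.pi ^ 2) * ∫ ξ in Ioi (0 : ℝ), ξ * ‖FF F ξ‖ ^ 2

/-- smooth cut-off: `1` on `[-1/2, 1/2]`, `0` outside `(-1, 1)` -/
def chi (x : ℝ) : ℝ := Real.smoothTransition (4 / 3 * (1 - x ^ 2))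

/-- the truncated Poisson kernel (times `y`) -/
def Fy (y x : ℝ) : ℝ := y ^ 2 / (x ^ 2 + y ^ 2) * chi x

/-- the position `z` of the zero `ρ = 1/2 + i z` -/
def zz (s : ℂ) : ℂ := -I * (s - 1 / 2)

/-- `Im (Ξ'/Ξ) - λ` -/
def UU (T : ℝ) (z : ℂ) : ℝ := (deriv (FT Ph) z / FT Ph z).im - lamT T

/-! ### the input from `H203/ME` (helper487 does these three) -/

/-- **S_L1Y** = `S_L1X` of `H203/ME/Defs2.lean` with `η = 1`. -/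
def S_L1Y : Prop := ∃ C T0 : ℝ, 0 < C ∧ 10 ≤ T0 ∧ ∀ T : ℝ, T0 ≤ T → ∀ (V : ℝ) (F : ℝ → ℝ), 0 ≤ V → Adm 1 V (Real.log T) F →
  ContinuousOn (XF F T) (Icc (T + 2 * Real.log T) (2 * T - 2 * Real.log T)) ∧
  ∫⁻ t in Icc (T + 2 * Real.log T) (2 * T - 2 * Real.log T), ENNReal.ofReal |XF F T t| ≤ ENNReal.ofReal (C * T * Real.sqrt (V + 1))

/-- **S_MAINY** = `S_MAIN` of `H203/ME/MAIN.lean`. -/
def S_MAINY : Prop := ∀ V ε : ℝ, 0 < V → 0 < ε → ∃ η T0 : ℝ, 0 < η ∧ η ≤ 1 ∧ 10 ≤ T0 ∧ ∀ T : ℝ, T0 ≤ T →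
  ∀ F : ℝ → ℝ, Adm η V (Real.log T) F →
    ‖(1 / T : ℂ) * (∫ t in T..(2 * T), cexp (I * (XF F T t : ℂ))) - cexp (-(sg F : ℂ) / 2)‖ ≤ ε

/-- **S_DENY** = `S_DEN` of `H203/ME/Defs.lean`. -/
def S_DENY : Prop := ∃ C T0 : ℝ, 0 < C ∧ 10 ≤ T0 ∧ ∀ T : ℝ, T0 ≤ T → (ZI (T / 2) (3 * T)).Finite ∧
  ∑ᶠ s ∈ ZI (T / 2) (3 * T), (mz s : ℝ) * ((s.re - 1 / 2) ^ 2 * Real.exp (Real.log T * |s.re - 1 / 2| / 2)) ≤ C * T / Real.log T

/-! ### the kernel -/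

/-- **S_KAD.** The truncated Poisson kernel is admissible. Pure analysis.

Proof. `F = Fy y`, `0 < y ≤ 2`, constants absolute. `∫ |F| ≤ π y`. `∫ |F''| ≤ C / y` (`(y²/(x²+y²))''` is homogeneous: `y^{-2} g(x/y)`; the terms with `chi'`, `chi''` live on `1/2 ≤ |x| ≤ 1` and are `O(y²)`).
`∫ |x F(x)| ≤ y² log (1 + 1/y²) ≤ C y^{3/2}`, `∫ |(x F)''| ≤ C`. Hence (two integrations by parts, `deriv (FF F) ξ = -i FF (x F) ξ`)
`‖FF F ξ‖ ≤ min (π y) (C / (y ξ²))`, `‖deriv (FF F) ξ‖ ≤ min (C y^{3/2}) (C / ξ²)`. Splitting at `ξ = 1/y`: `∫_0^∞ ξ ‖FF‖² ≤ C`, `∫_0^∞ ‖FF‖² ≤ C y`, `∫_0^∞ 2 ξ ‖FF‖ ‖FF'‖ ≤ C √y`.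
This gives (1) (scale by a small `c`; `y^{-1} ≤ L`) and the `Adm` part of (2) (`C |u| / y ≤ η L` if `y L ≥ K`).
Variance: `∫_ℝ y²/(x²+y²) e^{-iξx} dx = π y e^{-y|ξ|}` (Fourier transform of the Poisson kernel; or by Fourier inversion from `e^{-y|ξ|}`; see also the library, `Pool/Graph/INDEX.tsv`), and the difference `D = y²/(x²+y²) - F = y²/(x²+y²) (1 - chi)` has
`∫ |D| ≤ C y²`, `∫ |D''| ≤ C y²`, so `‖FF F ξ - π y e^{-yξ}‖ ≤ C y² min(1, ξ^{-2})` and `sg F - 1/8 = (1/2π²)(∫ ξ ‖FF F‖² - ∫ ξ π² y² e^{-2yξ}) = O(y)`. `sg (u F) = u² sg F`. (Helper lemmas for `FF`: `Pool/Agent/H203/ME/VAR.lean`, `ADM.lean`.) -/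
def S_KAD : Prop :=
  (∃ c V : ℝ, 0 < c ∧ 0 < V ∧ ∀ y L : ℝ, 0 < y → y ≤ 2 → 1 ≤ L → 1 ≤ y * L → Adm 1 V L (fun x => c * Fy y x)) ∧
  (∀ u : ℝ, ∃ V : ℝ, 0 < V ∧ ∀ η : ℝ, 0 < η → ∃ δ K : ℝ, 0 < δ ∧ 1 ≤ K ∧ ∀ y L : ℝ, 0 < y → y ≤ δ → K ≤ y * L →
    Adm η V L (fun x => u * Fy y x) ∧ |sg (fun x => u * Fy y x) - u ^ 2 / 8| ≤ η)

/-- **S_CDF.** The distribution function of the statistic. To be proved from `S_MAINY`, `S_KAD`.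

Proof. `XF (u F) = u XF F`. By `S_MAINY` and `S_KAD` (2), for each `u` the characteristic function `(1/T) ∫_T^{2T} e^{iu XF (Fy r) T t} dt` is within `ε'` of `e^{-u²/16}` once `T ≥ T0(u,ε')`, `r log T ≥ K(u, ε')`, `r ≤ δ(u, ε')`.
If the claim failed for some `a`, `ε`, there would be sequences `T_n → ∞`, `r_n → 0`, `r_n log T_n → ∞` for which it fails; the laws of `XF (Fy r_n) T_n` under the uniform measure of `[T_n, 2T_n]` have characteristic functions tending pointwise to that of `N(0, 1/8)`, so they converge weakly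
(Lévy's continuity theorem in Mathlib: `MeasureTheory.ProbabilityMeasure.tendsto_iff_tendsto_charFun` or similar) and the distribution functions converge at every point (portmanteau: `gaussianReal` has no atoms). Measurability of `t ↦ XF (Fy r) T t`: it is continuous on `[T, 2T]` for `T ≥ 4`: a locally finite sum of continuous
functions (see `XF_eq` in `H203/ME/APX.lean` and `XF_contOn` in `MAIN.lean` for the same thing). -/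
def S_CDF : Prop := ∀ a ε : ℝ, 0 < ε → ∃ K δ T0 : ℝ, 1 ≤ K ∧ 0 < δ ∧ ∀ T : ℝ, T0 ≤ T → ∀ r : ℝ, 0 < r → K ≤ r * Real.log T → r ≤ δ →
  |(volume {t : ℝ | t ∈ Icc T (2 * T) ∧ XF (Fy r) T t ≤ a}).toReal - T * (ProbabilityTheory.gaussianReal 0 1).real (Set.Iic (Real.sqrt 8 * a))| ≤ ε * T

/-! ### `Im Ξ'/Ξ` as a linear statistic -/

/-- **S_HAD.** Partial fractions with an error `O(y)`, from the functional equation.

Proof. `f = Ξ = FT Ph`, `Ξ(z) = HR(s) ζ(s)`, `s = 1/2 + iz` (`FT_Ph_eq`), real on the real line, `f (conj z) = conj (f z)`. Let `t ∈ [3T/4, 5T/2]`, `L = log T`. (i) Landau's local lemma at the scale `L`: for `|z - t| ≤ L`, `f'/f(z) = ∑_{|ρ.im - t| ≤ 4L} m/(z - zz ρ) + A₁(z)`, `A₁` holomorphic, `|A₁| ≤ C L`: divide `f` by the product over its zeros in the disc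
`|z - t| ≤ 4L`-ish, use `log |f(z)/f(t-2i)| ≤ C L²` on `|z-t| ≤ 8 L` (`fact_R`, `crude`-type bounds in `Pool/Agent/H477/Jen/XiInst.lean`, `Jen/Loc.lean`; `f(t-2i)` is bounded below as `|ζ| ≥ c` at real part `5/2`), Borel-Caratheodory (`Complex.borelCaratheodory`) for the log of the quotient on discs of radius `~L`: `|A₁| ≤ C L²/L`. So `|A₁'| ≤ C` for `|z-t| ≤ L/2`.
(ii) the other zeros with ordinate in `(T/2, 3T]` contribute to the derivative at most `∑ m/|z - zz ρ|² ≤ C ∑_{n ≥ L} L/n² ≤ C` (at most `C log T` zeros per unit interval: `H370.zcount` with `H370.good_zeta`, or `S_UNITU`-like lemmas). (iii) So `A(z) = f'/f(z) - ∑_{ρ ∈ ZI (T/2) (3T)} m/(z - zz ρ)` is holomorphic near the segment `[t, t - 5/4 i]`, `|A'| ≤ C` there, and `Im A(t) = 0`: `f'/f` is real on the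
real line away from the zeros and the sum is real there because `ρ ↦ 1 - conj ρ` permutes the zeros (with multiplicity) and conjugates `zz ρ` (at a zero take limits/continuity of `A`). Hence `|Im A(t - iy)| ≤ C y`. A similar local formula at the scale `1/log T`: `Pool/Agent/H444/MH`. -/
def S_HAD : Prop := ∃ C T0 : ℝ, 0 < C ∧ 10 ≤ T0 ∧ ∀ T : ℝ, T0 ≤ T → (ZI (T / 2) (3 * T)).Finite ∧
  ∀ t : ℝ, 3 / 4 * T ≤ t → t ≤ 5 / 2 * T → ∀ y : ℝ, 0 < y → y ≤ 5 / 4 → FT Ph ((t : ℂ) - I * y) ≠ 0 →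
    |(deriv (FT Ph) ((t : ℂ) - I * y) / FT Ph ((t : ℂ) - I * y)).im -
      ∑ᶠ ρ ∈ ZI (T / 2) (3 * T), (mz ρ : ℝ) * (1 / ((t : ℂ) - I * y - zz ρ)).im| ≤ C * y

/-- **S_OFF.** The zeros off the line may be moved to the line. To be proved from `S_DENY`.

Proof. `zz ρ = γ - ib`, `b = β - 1/2`, and `Im 1/(t - iy - zz ρ) = (y-b)/((t-γ)² + (y-b)²)`. `ρ ↦ 1 - conj ρ` (`b ↦ -b`) permutes the zeros with multiplicity (`H370.good_zeta.symm` or the functional equation), so twice the sum is `∑ m (y q(y-b) + y q(y+b) - 2 y q(y))`, `q(v) = v/((t-γ)² + v²)`.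
`∫_ℝ |q(v)| dt ≤ π`, so for `|b| ≥ y/2` the `L¹(dt)` norm is `≤ 4π y ≤ 16 π b²/y`; for `|b| < y/2`, `∫ |q''(v)| dt ≤ C/v²` (`q''` homogeneous), so it is `≤ y b² C/(y/2)²`. Sum: `≤ (C/y) ∑ m b² ≤ (C/y) C T/log T` by `S_DENY`. -/
def S_OFF : Prop := ∃ C T0 : ℝ, 0 < C ∧ 10 ≤ T0 ∧ ∀ T : ℝ, T0 ≤ T → ∀ y : ℝ, 0 < y → y ≤ 5 / 4 →
  ∫⁻ t in Icc T (2 * T), ENNReal.ofReal |∑ᶠ ρ ∈ ZI (T / 2) (3 * T), (mz ρ : ℝ) * (y * (1 / ((t : ℂ) - I * y - zz ρ)).im - y ^ 2 / ((ρ.im - t) ^ 2 + y ^ 2))| ≤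
    ENNReal.ofReal (C * T / (y * Real.log T))

/-- **S_POI.** The Poisson sum is the linear statistic of `Fy y`, up to `O(y)` in mean. To be proved from `S_L1Y`.

Proof. `L = log T`, `t ∈ [T + 3L, 2T - 3L]`; write `φ(x) = y²/(x²+y²) = Fy y x + φ(x)(1 - chi x)`. Partition of unity: let `ψ ≥ 0` be smooth with support in `[-1,1]` and `∑_{n ∈ ℤ} ψ(2x - n) = 1` (e.g. `ψ(x) = S(x+1) - S(x)`, `S` = `Real.smoothTransition`). For `|n| ≤ 2L`, `H_n(x) = ψ(2x) (1 - chi(x + n/2)) /((x + n/2)² + y²)` is supported in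
`[-1/2, 1/2]` and its derivatives up to order 2 are `≤ C/(1+n²)` uniformly in `y ∈ (0, 5/4]` (`1 - chi = 0` on `[-1/2,1/2]`), so `c (1+n²) H_n ∈ Adm 1 V L` with absolute `c, V` (`‖FF H ξ‖, ‖deriv (FF H) ξ‖ ≤ C min(1, ξ^{-2})`, helper lemmas in `H203/ME/VAR.lean`, `ADM.lean`), and by `S_L1Y` (translate: `t + n/2 ∈ [T + 2L, 2T - 2L]`)
`∫ |XF H_n T (t + n/2)| dt ≤ C T/(1+n²)`. `∑_γ m (1-chi(γ-t)) φ(γ-t) ψ(2(γ-t) - n) = y² ∑_γ m H_n(γ - t - n/2)`, so `y² ∑_{|n| ≤ 2L} XF H_n T (t+n/2)` has `L¹` norm `≤ C y² T`. The zeros with `|γ - t| ≥ L - 1`, `T/2 < γ ≤ 3T`, contribute `≤ y² ∑_{j ≥ L-1} C L/j² ≤ C y²`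
pointwise (at most `C log T` zeros in a unit interval: `H370.zcount`, `H370.good_zeta`). Constants: `(L/2π) ∫ (φ - (part with |n| > 2L)) = (L/2π)(π y - O(y²/L)) = y L/2 + O(y²)` and `y lamT T = y L/2 - y log(2π)/2`. Everything is `O(y)`. -/
def S_POI : Prop := ∃ C T0 : ℝ, 0 < C ∧ 10 ≤ T0 ∧ ∀ T : ℝ, T0 ≤ T → ∀ y : ℝ, 0 < y → y ≤ 5 / 4 →
  ∫⁻ t in Icc (T + 3 * Real.log T) (2 * T - 3 * Real.log T),
      ENNReal.ofReal |(∑ᶠ ρ ∈ ZI (T / 2) (3 * T), (mz ρ : ℝ) * (y ^ 2 / ((ρ.im - t) ^ 2 + y ^ 2))) - y * lamT T - XF (Fy y) T t| ≤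
    ENNReal.ofReal (C * y * T)

/-- **S_UAP.** To be proved from `S_HAD`, `S_OFF`, `S_POI`, `S_L1Y`, `S_KAD`.

Proof. `y UU = y (Im f'/f - ∑) + ∑ m (y Im(1/..) - y²/..) + (∑ m y²/.. - y lamT - XF) + XF`; the first is `O(y²)` for all `t` with `FT Ph (t - iy) ≠ 0` (all but countably many `t`: `Ξ` is entire, not zero; null set), then `S_OFF`, `S_POI`. For (1) `∫ |XF (Fy y)| = c⁻¹ ∫ |XF (c Fy y)| ≤ C T` by `S_KAD` (1) and `S_L1Y`. For (2): the total is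
`C T (y² + 1/(y log T) + y)`. Measurability: finite sums (`(ZI ..).Finite` from `S_HAD`) of measurable functions, `XF` is continuous on the interval. -/
def S_UAP : Prop :=
  (∃ C K T0 : ℝ, 0 < C ∧ 1 ≤ K ∧ 10 ≤ T0 ∧ ∀ T : ℝ, T0 ≤ T → ∀ y : ℝ, 0 < y → y ≤ 5 / 4 → K ≤ y * Real.log T →
    ∫⁻ t in Icc (T + 3 * Real.log T) (2 * T - 3 * Real.log T), ENNReal.ofReal |y * UU T ((t : ℂ) - I * y)| ≤ ENNReal.ofReal (C * T)) ∧
  (∀ ε : ℝ, 0 < ε → ∃ δ K T0 : ℝ, 0 < δ ∧ 1 ≤ K ∧ 10 ≤ T0 ∧ ∀ T : ℝ, T0 ≤ T → ∀ y : ℝ, 0 < y → y ≤ δ → K ≤ y * Real.log T →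
    ∫⁻ t in Icc (T + 3 * Real.log T) (2 * T - 3 * Real.log T), ENNReal.ofReal |y * UU T ((t : ℂ) - I * y) - XF (Fy y) T t| ≤ ENNReal.ofReal (ε * T))

/-- the cone below `t` -/
def cone (t r : ℝ) : Set ℂ := {w : ℂ | r / 4 ≤ -w.im ∧ -w.im ≤ 5 / 4 ∧ |w.re - t| ≤ 2 * (-w.im)}

/-- **S_CONE.** A holomorphic function is controlled by its imaginary part in the cone. Pure complex analysis.

Proof. (a) If `G` is holomorphic near the closed disc of centre `z`, radius `ρ`, then `∫_0^{2π} G(z + s e^{iθ}) e^{-iθ} dθ = 2π s G'(z)` and `∫ conj(G(z + s e^{iθ})) e^{-iθ} dθ = conj (∫ G e^{iθ}) = 0`, so `π s |G'(z)| ≤ ∫_0^{2π} |Im G(z + s e^{iθ})| dθ`; multiply by `s` and integrate over `0 < s < ρ` (polar coordinates): `|G'(z)| ≤ (3/(π ρ³)) ∫_{B(z,ρ)} |Im G|`.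
(b) For `z = x₀ - i y₀` in `closedBall (t - ir) (r/2)` use `G(z) = G(x₀ - i) - ∫_{y₀}^1 (d/dy) G(x₀ - iy) dy`, `|x₀ - t| ≤ r/2`, `r/2 ≤ y₀ ≤ 3r/2 < 1`, and (a) at `x₀ - iy` with `ρ = y/4`: the disc lies in `cone t r` (`3y/4 ≤ -Im w ≤ 5y/4`, `|Re w - t| ≤ r/2 + y/4 ≤ 5y/4 ≤ 2 (3y/4)`).
(c) Tonelli: `∫_{y₀}^1 (3·64/(π y³)) ∫_{B(x₀ - iy, y/4)} |Im G(w)| dA dy ≤ C ∫_{cone} |Im G(w)| |Im w|^{-2} dA`, since for fixed `w` the `y` with `w ∈ B(x₀-iy, y/4)` satisfy `4/5 |Im w| ≤ y ≤ 4/3 |Im w|`. -/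
def S_CONE : Prop := ∃ C : ℝ, 0 < C ∧ ∀ (G : ℂ → ℂ) (t r A : ℝ), 0 < r → r ≤ 1 / 4 → 0 ≤ A →
  (∀ w ∈ cone t r, AnalyticAt ℂ G w) → (∀ x : ℝ, |x - t| ≤ 1 → ‖G ((x : ℂ) - I)‖ ≤ A) →
  ∀ z : ℂ, ‖z - ((t : ℂ) - I * r)‖ ≤ r / 2 →
    ENNReal.ofReal ‖G z‖ ≤ ENNReal.ofReal A + ENNReal.ofReal C * ∫⁻ w in cone t r, ENNReal.ofReal (|(G w).im| / w.im ^ 2)

/-- **S_CZ.** Cones without zeros. To be proved from `S_DENY`.

Proof. `B` = the union over the zeros `ρ ∈ ZI (T/2) (3T)` with `|β - 1/2| ≥ r/4` of the intervals `|t - ρ.im| ≤ 2 |β - 1/2|`; its measure is `≤ ∑ 4|b| ≤ (16/r) ∑ m b² ≤ C T/(r log T)` by `S_DENY`. A zero `w` of `Ξ` in `cone t r`: `1/2 + i w` is a zero of `ζ` with real part `1/2 - Im w ≥ 1/2 + r/4`, `< 1`, and ordinate `Re w` (`FT_Ph_eq`; multiplicities are not needed; zeros of `Ξ` have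
`|Im| < 1/2`, see `zeros_R` in `H477/Jen` or the zero-free half planes). -/
def S_CZ : Prop := ∃ C T0 : ℝ, 0 < C ∧ 10 ≤ T0 ∧ ∀ T : ℝ, T0 ≤ T → ∀ r : ℝ, 0 < r → r ≤ 1 → ∃ B : Set ℝ, MeasurableSet B ∧
  volume B ≤ ENNReal.ofReal (C * T / (r * Real.log T)) ∧ ∀ t : ℝ, T ≤ t → t ≤ 2 * T → t ∉ B → ∀ w ∈ cone t r, FT Ph w ≠ 0

/-- **S_G1.** `Ξ'/Ξ` at the distance 1 from the line.

Proof. `Ξ(z) = HR(s) ζ(s)`, `s = 1/2 + iz = 3/2 + ix`: `Ξ'/Ξ(x - i) = i (HR'/HR(s) + ζ'/ζ(s))`, `|ζ'/ζ(3/2+ix)| ≤ ∑ Λ(n) n^{-3/2}`, and `HR'/HR(s) = (1/2) log(x/2π) + O(1)` (Stirling for `ψ`; or from `fact_R`/`loc_R.fact` in `Pool/Agent/H477/Jen/XiInst.lean`: `HR(s + v)/HR(s) = exp(lamR-ish v)(1 + small)` for `|v| ≤ 1`, then Cauchy's estimate for the logarithmic derivative). -/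
def S_G1 : Prop := ∃ A T0 : ℝ, 0 < A ∧ 10 ≤ T0 ∧ ∀ T : ℝ, T0 ≤ T → ∀ x : ℝ, T / 2 ≤ x → x ≤ 3 * T →
  ‖deriv (FT Ph) ((x : ℂ) - I) / FT Ph ((x : ℂ) - I) - I * (lamT T : ℂ)‖ ≤ A

/-- **S_GDX.** The good heights. To be proved from `S_UAP`, `S_CONE`, `S_CZ`, `S_G1`.

Proof. `L = log T`, `G(w) = Ξ'(w)/Ξ(w) - i lamT T`, so `Im G = UU T`. For `t ∈ [T + 3L + 3, 2T - 3L - 3]` outside the set of `S_CZ`, `G` is analytic at the points of `cone t r` and `S_CONE` bounds `‖G z‖` by `A + C I(t)`, `I(t) = ∫⁻_{cone t r} |UU T w|/(Im w)²`. By Tonelli (measurability of `deriv Ξ/Ξ`: quotient of continuous functions)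
`∫⁻ I(t) dt ≤ ∫_{r/4}^{5/4} (4y) y^{-2} (C T/y) dy ≤ C' T/r` by `S_UAP` (1) with `K ≤ (r/4) L` (the points `x = w.re` run over `[T + 3L, 2T - 3L]`, each `x` is counted for `t` in an interval of length `4y`). Markov: `A + C I(t) ≤ J/r` off a set of measure `≤ (ε/4) T`, `J` = `J(ε)` large. `S_UAP` (2) with `ε²/8` and Markov for the last claim. The heights
`[T, T + 3L + 3]`, `[2T - 3L - 3, 2T]` are put into `B`. Also for `z` in the ball `Ξ z ≠ 0` since `closedBall (t - ir) (r/2) ⊆ cone t r`. -/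
def S_GDX : Prop := ∀ ε : ℝ, 0 < ε → ∃ J K δ T0 : ℝ, 0 < J ∧ 1 ≤ K ∧ 0 < δ ∧ 10 ≤ T0 ∧ ∀ T : ℝ, T0 ≤ T → ∀ r : ℝ, 0 < r → K ≤ r * Real.log T → r ≤ δ →
  ∃ B : Set ℝ, MeasurableSet B ∧ volume B ≤ ENNReal.ofReal (ε * T) ∧ ∀ t : ℝ, T ≤ t → t ≤ 2 * T → t ∉ B →
    (∀ z : ℂ, ‖z - ((t : ℂ) - I * r)‖ ≤ r / 2 → FT Ph z ≠ 0 ∧ ‖deriv (FT Ph) z / FT Ph z - I * (lamT T : ℂ)‖ ≤ J / r) ∧
    |r * UU T ((t : ℂ) - I * r) - XF (Fy r) T t| ≤ ε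

/-! ### the local theorem -/

/-- the constant of the saddle point -/
def AA (k : ℕ) : ℂ := ∫ x in (-(1 / 8) : ℝ)..(1 / 8), cexp (k * (cexp (I * x) - 1 - I * x))

/-- **S_PREC.** The half circle integral to constant precision. Pure analysis (tools: `Pool/Agent/H477/E/Loc1.lean`, `Loc2.lean`).

Proof. `u = -(I r)`, `r = k/lam`, `i lam u = k`. For `‖c - t‖ ≤ r/8`, `|x| ≤ 1/8` the segment from `c + u` to `c + u e^{ix}` lies in `‖z - (t + u)‖ ≤ r/4`; integrating `f'/f`: `f(c + u e^{ix}) = f(c+u) exp(k (e^{ix} - 1)) e^{h(x)}`, `|h(x)| ≤ (J/r) r |e^{ix} - 1| ≤ J |x|`. So the inner part of `half f u k c` minus `AA k f(c+u)` is at most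
`‖f(c+u)‖ ∫ e^{k (cos x - 1)} J |x| e^{J/8} dx ≤ C_J ‖f(c+u)‖ / k` (`cos x - 1 ≤ -x²/3`), while `‖AA k‖ ≥ c/√k` for large `k`: `Re exp(k(e^{ix} - 1 - ix)) = e^{k(cos x - 1)} cos(k (sin x - x)) ≥ ..`, on `|x| ≤ k^{-1/2}` it is `≥ 1/2`, on `|x| ≤ k^{-1/3}` it is `≥ 0`, and for `|x| ≥ k^{-1/3}` the modulus is `≤ exp(-k^{1/3}/3)`.
Outer part `1/8 ≤ |x| ≤ π/2`: `LGd.circ` (as in `LGd.two`): `‖f(c + u e^{ix})‖ ≤ ‖f(t+u)‖ exp(-(lam c.im) - k/320 + C η k)`-type bound, and `‖f(c+u)‖ ≥ ‖f(t+u)‖ exp(-(lam c.im)) e^{-J/8}` (integrate `f'/f` from `t+u` to `c+u`). -/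
def S_PREC : Prop := ∀ J ε : ℝ, 0 < J → 0 < ε → ∃ η : ℝ, 0 < η ∧ η ≤ 1 ∧ ∃ k0 : ℕ, ∀ f : ℂ → ℂ, Differentiable ℂ f →
  ∀ k : ℕ, k0 ≤ k → ∀ lam t : ℝ, 0 < lam → k / lam ≤ 1 / 100 → LGd f k lam t η →
  (∀ z : ℂ, ‖z - ((t : ℂ) - I * ((k / lam : ℝ) : ℂ))‖ ≤ 2 / 5 * (k / lam) → f z ≠ 0 ∧ ‖deriv f z / f z - I * (lam : ℂ)‖ ≤ J * (lam / k)) →
  AA k ≠ 0 ∧ ∀ c : ℂ, ‖c - t‖ ≤ k / lam / 8 →
    ‖half f (-(I * ((k / lam : ℝ) : ℂ))) k c - AA k * f (c - I * ((k / lam : ℝ) : ℂ))‖ ≤ ε * (‖AA k‖ * ‖f (c - I * ((k / lam : ℝ) : ℂ))‖)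

/-- **S_GAPL.** The gaps between the real zeros of `f^{(k)}` near a good point, to the precision `o(1/k)`. To be proved from `S_PREC`.

Proof. `P = half f u k`, `u = -(I r)`, `r = k/lam`. By `S_PREC` with `ε' ≤ 1/2`, `P(c) = AA k f(c+u) (1 + E(c))`, `E` holomorphic, `|E| ≤ ε'` on `‖c - t‖ ≤ r/8`, so `|E'| ≤ 16 ε'/r` on `‖c-t‖ ≤ r/16` and `P'/P(c) = f'/f(c+u) + O(32 ε'/r)`. By Cauchy for `f'/f - i lam` on balls of radius `r/4`, `|(f'/f)'| ≤ 4J/r²` on `‖z - (t+u)‖ ≤ r/16`, so for real `c`, `|c - t| ≤ 20/lam`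
(`≤ r/16` for `k ≥ 320`): `P'/P(c) = f'/f(t+u) + O((32 ε' + 80 J/k)/r)`. As in `S_SPX`/`S_SPC` (proofs: `Pool/Agent/H548/EF/Spx.lean`, `Pool/Agent/H277/ED/Spc.lean`): by `half_decomp` a real `x` is a zero of `f^{(k)}` iff `(w P(x)).re = 0` (`w = 1` or `I`), `P(y) = P(x) exp(∫_x^y P'/P)`, so for two CONSECUTIVE real zeros `x < y` one has `Im ∫_x^y P'/P = π`
(it is a positive multiple of `π`, and if it were `≥ 2π` there would be a zero in between by the intermediate value theorem; `Im P'/P > 0` as `lam = k/r` dominates `J/r`). So `π = (y - x)(lam + U + O(ε''/r))`, `U = Im f'/f(t+u) - lam`, `|U| ≤ J/r`; so `y - x = (π/lam)(1 + O(J/k))` and `k((y-x) lam/π - 1) = -(k/π)(y-x)(U + O(ε''/r)) = -r U + O(J²/k + ε'')`. -/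
def S_GAPL : Prop := ∀ J ε : ℝ, 0 < J → 0 < ε → ∃ η : ℝ, 0 < η ∧ η ≤ 1 ∧ ∃ k0 : ℕ, ∀ f : ℂ → ℂ, Differentiable ℂ f →
  (∀ z, f ((starRingEnd ℂ) z) = (starRingEnd ℂ) (f z)) →
  ∀ k : ℕ, k0 ≤ k → ∀ lam t : ℝ, 0 < lam → k / lam ≤ 1 / 100 → LGd f k lam t η →
  (∀ z : ℂ, ‖z - ((t : ℂ) - I * ((k / lam : ℝ) : ℂ))‖ ≤ 2 / 5 * (k / lam) → f z ≠ 0 ∧ ‖deriv f z / f z - I * (lam : ℂ)‖ ≤ J * (lam / k)) →
  ∀ x y : ℝ, t - 20 / lam ≤ x → x < y → y ≤ t + 20 / lam → iteratedDeriv k f x = 0 → iteratedDeriv k f y = 0 →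
    (∀ v : ℝ, x < v → v < y → iteratedDeriv k f v ≠ 0) →
    |k * ((y - x) * lam / Real.pi - 1) +
      k / lam * ((deriv f ((t : ℂ) - I * ((k / lam : ℝ) : ℂ)) / f ((t : ℂ) - I * ((k / lam : ℝ) : ℂ))).im - lam)| ≤ ε

/-- **S_LGV.** `S_LGU` (`H477/E/StmU.lean`) on dyadic intervals. To be proved from `S_LGU`.

Proof. Cover `[T, 2T]` by the windows `|t - T_j| ≤ T_j/(4 log T_j)`, `T_j = T + j T/(4 log (2T))`, `0 ≤ j ≤ 4 log(2T)`, (each window has length `≥ 2·T/(4 log(2T))` so neighbours overlap); `B` = union of the exceptional sets: measure `≤ (4 log (2T) + 1) e^{-ck} 2T/log T ≤ 20 e^{-ck} T ≤ e^{-(c/2)k} T` for `k ≥ k0`. -/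
def S_LGV : Prop := ∀ η : ℝ, 0 < η → η ≤ 1 → ∃ c : ℝ, 0 < c ∧ ∃ k0 : ℕ, ∃ T0 : ℝ, ∀ T : ℝ, T0 ≤ T → ∀ k : ℕ, k0 ≤ k →
  300 * (k : ℝ) + 300 ≤ Real.log T → ∃ B : Set ℝ, MeasurableSet B ∧
    volume B ≤ ENNReal.ofReal (Real.exp (-c * k) * T) ∧
    ∀ t : ℝ, T ≤ t → t ≤ 2 * T → t ∉ B → ∃ T' : ℝ, T ≤ T' ∧ T' ≤ 2 * T ∧ LGd (FT Ph) k (lamT T') t η

/-! ### assembly (helper487) -/

/-- `w` is a real zero of `Ξ^{(k)}` and the normalised gap `√8 k ((b - w) log w/(2π) - 1)` to the next zero `b` is at most `a` -/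
def Gp (a : ℝ) (k : ℕ) (w : ℂ) : Prop := w.im = 0 ∧ ∃ b : ℝ, w.re < b ∧ iteratedDeriv k (FT Ph) b = 0 ∧
  (∀ z : ℂ, iteratedDeriv k (FT Ph) z = 0 → w.re < z.re → b ≤ z.re) ∧
  Real.sqrt 8 * k * ((b - w.re) * Real.log w.re / (2 * Real.pi) - 1) ≤ a

/-- **S_FINX.** -/
def S_FINX : Prop := ∀ a ε : ℝ, 0 < ε → ∃ (k0 : ℕ) (δ T0 : ℝ), 0 < δ ∧ ∀ T : ℝ, T0 ≤ T → ∀ k : ℕ, k0 ≤ k → (k : ℝ) ≤ δ * Real.log T →
  |(cnt k (Gp a k) (2 * T) - cnt k (Gp a k) T) -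
    (ProbabilityTheory.gaussianReal 0 1).real (Set.Iic a) * (cnt k (fun _ => True) (2 * T) - cnt k (fun _ => True) T)| ≤
    ε * (cnt k (fun _ => True) (2 * T) - cnt k (fun _ => True) T)

end

end Pool.Agent.H487.GA
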