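import Pool.Agent.H203.ME.ALL2
import Pool.Agent.H487.GA.Stm

set_option autoImplicit false

/-!
Project GA: the input from `H203/ME`.
-/

open Finset Complex Filter Topology Metric Set MeasureTheory

namespace Pool.Agent.H487.GA

open Pool.Agent.Helper242.KK (FT Ph)
open Pool.Agent.H477.Jen
open Pool.Agent.H477.E

theorem toAdm {η V L : ℝ} {F : ℝ → ℝ} (h : Adm η V L F) : Pool.Agent.H203.ME.Adm η V L F :=
  ⟨⟨h.c2.cd, h.c2.supp⟩, h.l1, h.l2, h.va, h.tv⟩

theorem XF_eq2 (F : ℝ → ℝ) (T t : ℝ) : XF F T t = Pool.Agent.H203.ME.XF F T t := rfl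

theorem sg_eq2 (F : ℝ → ℝ) : sg F = Pool.Agent.H203.ME.sg F := rfl

theorem mainy_proof : S_MAINY := by
  intro V ε hV hε
  obtain ⟨η, T0, h1, h2, h3, h4⟩ := Pool.Agent.H203.ME.p_MAIN V ε hV hε
  exact ⟨η, T0, h1, h2, h3, fun T hT F hF => h4 T hT F (toAdm hF)⟩

theorem l1y_proof : S_L1Y := by
  obtain ⟨C1, T1, _, hT1, h1⟩ := Pool.Agent.H203.ME.p_APX
  obtain ⟨C, T0, hC, hT0, h⟩ := Pool.Agent.H203.ME.p_L1X
  refine ⟨C, max T0 T1, hC, hT0.trans (le_max_left _ _), fun T hT V F hV hF => ?_⟩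
  obtain ⟨_, h2⟩ := h1 T ((le_max_right _ _).trans hT)
  obtain ⟨h3, h4, _⟩ := h2 1 V F one_pos (toAdm hF)
  have h5 := h T ((le_max_left _ _).trans hT) 1 V F one_pos le_rfl hV (toAdm hF)
  refine ⟨h3, ?_⟩
  have h6 : IntegrableOn (fun t => |XF F T t|) (Icc (T + 2 * Real.log T) (2 * T - 2 * Real.log T)) :=
    (ContinuousOn.abs (f := XF F T) h3).integrableOn_Icc
  rw [← ofReal_integral_eq_lintegral_ofReal h6 (Eventually.of_forall fun t => abs_nonneg _)]
  apply ENNReal.ofReal_le_ofReal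
  rw [integral_Icc_eq_integral_Ioc, ← intervalIntegral.integral_of_le h4]
  exact h5

theorem sum_union_le (A B : Finset ℂ) (g : ℂ → ℝ) (hg : ∀ s, 0 ≤ g s) : ∑ s ∈ A ∪ B, g s ≤ ∑ s ∈ A, g s + ∑ s ∈ B, g s := by
  classical
  rw [← Finset.sum_union_inter]
  have : 0 ≤ ∑ s ∈ A ∩ B, g s := Finset.sum_nonneg fun s _ => hg s
  linarith

/-- the summand -/
noncomputable def gg (T : ℝ) (s : ℂ) : ℝ := (mz s : ℝ) * ((s.re - 1 / 2) ^ 2 * Real.exp (Real.log T * |s.re - 1 / 2| / 2))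

theorem gg_nonneg (T : ℝ) (s : ℂ) : 0 ≤ gg T s := by unfold gg; positivity

theorem gg_le {T T' : ℝ} (hT : 1 ≤ T') (h : T ≤ 2 * T') (hT0 : 0 < T) {s : ℂ} (h0 : 0 < s.re) (h1 : s.re < 1) :
    gg T s ≤ 2 * gg T' s := by
  unfold gg
  have h2 : |s.re - 1 / 2| ≤ 1 / 2 := abs_le.2 ⟨by linarith, by linarith⟩
  have h3 : Real.log T ≤ Real.log T' + Real.log 2 := by
    rw [← Real.log_mul (by linarith) (by norm_num), mul_comm]
    exact Real.log_le_log hT0 h
  have h4 : Real.exp (Real.log T * |s.re - 1 / 2| / 2) ≤ 2 * Real.exp (Real.log T' * |s.re - 1 / 2| / 2) := by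
    rw [show (2:ℝ) * Real.exp (Real.log T' * |s.re - 1 / 2| / 2) =
      Real.exp (Real.log 2 + Real.log T' * |s.re - 1 / 2| / 2) by rw [Real.exp_add, Real.exp_log (by norm_num)]]
    apply Real.exp_le_exp.2
    have h5 := abs_nonneg (s.re - 1 / 2)
    have h6 : 0 < Real.log 2 := Real.log_pos (by norm_num)
    nlinarith [mul_le_mul_of_nonneg_right h3 h5]
  have h7 : (0:ℝ) ≤ (mz s : ℝ) * (s.re - 1 / 2) ^ 2 := by positivity
  nlinarith [mul_le_mul_of_nonneg_left h4 h7]

theorem deny_proof : S_DENY := by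
  obtain ⟨C, T0, hC, hT0, h⟩ := Pool.Agent.H203.ME.t_DEN
  refine ⟨24 * C, 2 * T0, by positivity, by linarith, fun T hT => ?_⟩
  have hT1 : 1 ≤ T / 2 := by linarith
  have hset : ZI (T / 2) (3 * T) = (↑(H370.Zf riemannZeta (T / 2) (3 * T)) : Set ℂ) := by
    ext s
    rw [Finset.mem_coe, H370.mem_Zf H370.good_zeta hT1]
    rfl
  refine ⟨by rw [hset]; exact Finset.finite_toSet _, ?_⟩
  rw [hset, finsum_mem_coe_finset]
  have key : ∀ U : ℝ, T / 2 ≤ U → U ≤ 3 / 2 * T → ∑ s ∈ H370.Zf riemannZeta U (2 * U), gg T s ≤ 8 * C * T / Real.log T := by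
    intro U h1 h2
    have hU : T0 ≤ U := by linarith
    have h3 := h U hU U (2 * U) le_rfl (by linarith) (by linarith) le_rfl
    have h4 : ∑ s ∈ H370.Zf riemannZeta U (2 * U), gg T s ≤ 2 * (C * U / Real.log U) := by
      refine le_trans (Finset.sum_le_sum (g := fun s => 2 * gg U s) fun s hs => ?_) ?_
      · rw [H370.mem_Zf H370.good_zeta (by linarith)] at hs
        exact gg_le (by linarith) (by linarith) (by linarith) hs.1 hs.2.1
      · rw [← Finset.mul_sum]
        exact mul_le_mul_of_nonneg_left h3 (by norm_num)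
    refine h4.trans ?_
    have h5 : Real.log T ≤ 2 * Real.log U := by
      rw [← Real.log_rpow (by linarith)]
      · apply Real.log_le_log (by linarith)
        have : (U:ℝ) ^ (2:ℝ) = U * U := by rw [Real.rpow_two]; ring
        rw [this]
        nlinarith
    have h6 : 0 < Real.log T := Real.log_pos (by linarith)
    have h7 : 0 < Real.log U := Real.log_pos (by linarith)
    rw [← mul_div_assoc, div_le_div_iff₀ h7 h6]
    have h8 : 0 < C * T := by nlinarith
    nlinarith [mul_le_mul_of_nonneg_left h5 (show 0 ≤ 2 * (C * U) by nlinarith), mul_le_mul_of_nonneg_right h2 (show 0 ≤ C * Real.log U by positivity),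
      mul_pos h8 h7]
  have hsub : H370.Zf riemannZeta (T / 2) (3 * T) ⊆
      H370.Zf riemannZeta (T / 2) (2 * (T / 2)) ∪ (H370.Zf riemannZeta T (2 * T) ∪ H370.Zf riemannZeta (3 / 2 * T) (2 * (3 / 2 * T))) := by
    intro s hs
    rw [H370.mem_Zf H370.good_zeta hT1] at hs
    obtain ⟨a1, a2, a3, a4, a5⟩ := hs
    rw [Finset.mem_union, Finset.mem_union, H370.mem_Zf H370.good_zeta hT1, H370.mem_Zf H370.good_zeta (by linarith),
      H370.mem_Zf H370.good_zeta (by linarith)]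
    rcases le_or_gt s.im T with h1 | h1
    · exact Or.inl ⟨a1, a2, a3, by linarith, a5⟩
    · rcases le_or_gt s.im (2 * T) with h2 | h2
      · exact Or.inr (Or.inl ⟨a1, a2, h1, h2, a5⟩)
      · exact Or.inr (Or.inr ⟨a1, a2, by linarith, by linarith, a5⟩)
  have h9 : ∑ s ∈ H370.Zf riemannZeta (T / 2) (3 * T), gg T s ≤ 8 * C * T / Real.log T + (8 * C * T / Real.log T + 8 * C * T / Real.log T) := by
    refine (Finset.sum_le_sum_of_subset_of_nonneg hsub fun s _ _ => gg_nonneg T s).trans ?_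
    refine (sum_union_le _ _ (gg T) (gg_nonneg T)).trans (add_le_add (key (T / 2) le_rfl (by linarith)) ?_)
    exact (sum_union_le _ _ (gg T) (gg_nonneg T)).trans (add_le_add (key T (by linarith) (by linarith)) (key (3 / 2 * T) (by linarith) le_rfl))
  change ∑ s ∈ H370.Zf riemannZeta (T / 2) (3 * T), gg T s ≤ _
  refine h9.trans (le_of_eq ?_)
  ring

end Pool.Agent.H487.GA
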