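import Pool.Agent.H487.GA.Fin6
import Pool.Agent.H487.EF.ToXi

set_option autoImplicit false

/-!
Project GA: translation to the derivatives of `xi`.
-/

open Finset Complex Filter Topology Metric Set MeasureTheory

namespace Pool.Agent.H487.GA

open Pool.Agent.Helper242.KK (FT Ph)
open Pool.Agent.H477.Jen
open Pool.Agent.H477.E
open Pool.Agent.H487.EF (neg_I_mul_re neg_I_mul_im line_pt back_pt)

/-- `Gp` for `xi` -/
def GpX (a : ℝ) (m : ℕ) (s : ℂ) : Prop := s.re = 1 / 2 ∧ ∃ b : ℝ, s.im < b ∧ iteratedDeriv m xi (1 / 2 + b * I) = 0 ∧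
  (∀ z : ℂ, iteratedDeriv m xi z = 0 → s.im < z.im → b ≤ z.im) ∧
  Real.sqrt 8 * m * ((b - s.im) * Real.log s.im / (2 * Real.pi) - 1) ≤ a

/-- `Fm` for `xi` -/
def FmX (ε r : ℝ) (m : ℕ) (s : ℂ) : Prop := s.re = 1 / 2 ∧ iteratedDeriv (m + 1) xi s ≠ 0 ∧ riemannZeta (s + r) ≠ 0 ∧
  ∃ a b : ℝ, a < s.im ∧ s.im < b ∧ iteratedDeriv m xi (1 / 2 + a * I) = 0 ∧ iteratedDeriv m xi (1 / 2 + b * I) = 0 ∧
  (∀ z : ℂ, iteratedDeriv m xi z = 0 → a < z.im → z.im < b → z = s) ∧
  |m * ((s.im - a) * Real.log s.im / (2 * Real.pi) - 1) + r * (deriv riemannZeta (s + r) / riemannZeta (s + r)).re| ≤ ε ∧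
  |m * ((b - s.im) * Real.log s.im / (2 * Real.pi) - 1) + r * (deriv riemannZeta (s + r) / riemannZeta (s + r)).re| ≤ ε

theorem half_iff (s : ℂ) : s.re = 1 / 2 ↔ 1 / 2 - s.re = 0 := by
  constructor
  · intro h; linarith
  · intro h; linarith

theorem gpx_iff (a : ℝ) (m : ℕ) (s : ℂ) : GpX a m s ↔ Gp a m (-I * (s - 1 / 2)) := by
  unfold GpX Gp
  rw [neg_I_mul_re, neg_I_mul_im]
  refine and_congr (half_iff s) (exists_congr fun b => and_congr Iff.rfl (and_congr ?_ (and_congr ?_ Iff.rfl)))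
  · rw [xi_iter_zero, line_pt]
  · constructor
    · intro h w hw h1
      have h3 := h (1 / 2 + I * w) ((xi_iter_zero m _).2 (by rw [back_pt]; exact hw)) (by simpa using h1)
      simpa using h3
    · intro h z hz h1
      have h3 := h (-I * (z - 1 / 2)) ((xi_iter_zero m z).1 hz) (by rw [neg_I_mul_re]; exact h1)
      rwa [neg_I_mul_re] at h3

theorem fmx_iff (ε r : ℝ) (m : ℕ) (s : ℂ) : FmX ε r m s ↔ Fm ε r m (-I * (s - 1 / 2)) := by
  unfold FmX Fm
  rw [neg_I_mul_re, neg_I_mul_im]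
  constructor
  · rintro ⟨h1, h2, h3, a, b, h4, h5, h6, h7, h8, h9, h10⟩
    have e : (1 / 2 + r + I * s.im : ℂ) = s + r := by
      apply Complex.ext
      · simp [h1]
      · simp
    rw [e]
    refine ⟨(half_iff s).1 h1, fun h => h2 ((xi_iter_zero (m + 1) s).2 h), h3, a, b, h4, h5, ?_, ?_, ?_, h9, h10⟩
    · rw [← line_pt a, ← xi_iter_zero]; exact h6
    · rw [← line_pt b, ← xi_iter_zero]; exact h7
    · intro w hw g1 g2
      have g3 := h8 (1 / 2 + I * w) ((xi_iter_zero m _).2 (by rw [back_pt]; exact hw)) (by simpa using g1) (by simpa using g2)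
      rw [← g3, back_pt]
  · rintro ⟨h1, h2, h3, a, b, h4, h5, h6, h7, h8, h9, h10⟩
    have h1' := (half_iff s).2 h1
    have e : (1 / 2 + r + I * s.im : ℂ) = s + r := by
      apply Complex.ext
      · simp [h1']
      · simp
    rw [e] at h3 h9 h10
    refine ⟨h1', fun h => h2 ((xi_iter_zero (m + 1) s).1 h), h3, a, b, h4, h5, ?_, ?_, ?_, h9, h10⟩
    · rw [xi_iter_zero, line_pt]; exact h6
    · rw [xi_iter_zero, line_pt]; exact h7
    · intro z hz g1 g2
      have g3 := h8 (-I * (z - 1 / 2)) ((xi_iter_zero m z).1 hz) (by rw [neg_I_mul_re]; exact g1) (by rw [neg_I_mul_re]; exact g2)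
      have g4 := mul_left_cancel₀ (neg_ne_zero.2 I_ne_zero) g3
      linear_combination g4

end Pool.Agent.H487.GA
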