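import Pool.Agent.H331.GA.KB
import Pool.Agent.H178.GA.KAD
import Pool.Agent.H721.GA.LAND
import Pool.Agent.H181.GA.HAD
import Pool.Agent.H100.GA.OFFA
import Pool.Agent.H640.GA.OFF
import Pool.Agent.H487.GA.HN
import Pool.Agent.H969.GA.POI
import Pool.Agent.H229.GA.CONEA
import Pool.Agent.H980.GA.Cone
import Pool.Agent.H505.GA.Preca
import Pool.Agent.H484.GA.Prec
import Pool.Agent.H364.GA.Gapl
import Pool.Agent.H914.GA.LEVS
import Pool.Agent.H358.GA.Cdf
import Pool.Agent.H790.GA.Uap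
import Pool.Agent.H628.GA.CZ
import Pool.Agent.H628.GA.G1
import Pool.Agent.H52.GA.GDX
import Pool.Agent.H903.GA.Lgv
import Pool.Agent.H487.GA.Inp
import Pool.Agent.H487.GA.Fin4
import Pool.Agent.H487.ED.Top

set_option autoImplicit false

/-! Project GA, assembled. -/

namespace Pool.Agent.H487.GA

theorem t_KAD : S_KAD := kad_proof Pool.Agent.H331.GA.kb_proof

theorem t_HAD : S_HAD := Pool.Agent.H181.GA.had_proof Pool.Agent.H721.GA.land_proof

theorem t_OFF : S_OFF := Pool.Agent.H640.GA.off_proof Pool.Agent.H100.GA.OFFA.offa_proof deny_proof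

theorem t_POI : S_POI := Pool.Agent.H969.GA.POI.poi_proof l1y_proof Pool.Agent.H487.GA.HNc.hn_proof

theorem t_UAP : S_UAP := Pool.Agent.H790.GA.uap_proof t_HAD t_OFF t_POI l1y_proof t_KAD

theorem t_GDX : S_GDX := Pool.Agent.H52.GA.GDX.gdx_proof t_UAP (Pool.Agent.H980.GA.cone_proof Pool.Agent.H229.GA.conea_proof)
  (Pool.Agent.H628.GA.cz_proof deny_proof) Pool.Agent.H628.GA.g1_proof

theorem t_GAPL : S_GAPL := Pool.Agent.H364.GA.gapl_proof (Pool.Agent.H484.GA.prec_proof Pool.Agent.H505.GA.preca_proof)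

theorem t_CDF : S_CDF := Pool.Agent.H358.GA.cdf_proof Pool.Agent.H914.GA.LEVS.levs_proof mainy_proof t_KAD

theorem t_LGV : S_LGV := Pool.Agent.H903.GA.lgv_proof Pool.Agent.H477.EU.t_LGU

theorem t_FINX : S_FINX :=
  finx_proof t_GAPL t_LGV t_GDX Pool.Agent.H487.ED.t_SPC Pool.Agent.H331.GA.kb_proof t_CDF Pool.Agent.H487.ED.t_DYA

end Pool.Agent.H487.GA
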