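import Pool.Agent.H487.GA.Top
import Pool.Agent.H487.GA.ToXi

set_option autoImplicit false

/-! Project GA, assembled: the gap formula. -/

namespace Pool.Agent.H487.GA

theorem t_FORM {ε : ℝ} (hε : 0 < ε) : ∃ (k0 : ℕ) (δ T0 : ℝ), 0 < δ ∧ ∀ T : ℝ, T0 ≤ T → ∀ k : ℕ, k0 ≤ k → (k : ℝ) ≤ δ * Real.log T →
    Pool.Agent.H477.E.cnt k (fun w => ¬ Fm ε (k / Pool.Agent.H477.E.lamT T) k w) (2 * T) -
      Pool.Agent.H477.E.cnt k (fun w => ¬ Fm ε (k / Pool.Agent.H477.E.lamT T) k w) T ≤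
      ε * (Pool.Agent.H477.E.cnt k (fun _ => True) (2 * T) - Pool.Agent.H477.E.cnt k (fun _ => True) T) :=
  form t_GAPL t_LGV t_GDX Pool.Agent.H487.ED.t_SPC Pool.Agent.H487.ED.t_DYA hε

end Pool.Agent.H487.GA
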